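import Pool.Agent.Helper55.FL2.GPd

/-! FL2-G4, part 5: the comparison map of a sub-presheaf. -/

open CategoryTheory MonoidalCategory Opposite Simplicial

set_option autoImplicit false

namespace Pool.Agent.Helper55.FL2

open FL Pool.Agent.Helper45.LOC
open Pool.Agent.Helper81.FL2 (cface_inf)

theorem kan_of_iso {K L : SSet.{0}} (f : K ⟶ L) [IsIso f] (hL : SSet.KanComplex L) :
    SSet.KanComplex K :=
  Pool.Agent.Helper83.FL4.kan_of_kanFib (p := f) (fun _ _ => inferInstance) hL

theorem Fp_snd_kanFib {E₁ E₂ B : SSet.{0}} (p : E₁ ⟶ B) (q : E₂ ⟶ B) (hp : KanFib p) :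
    KanFib (Fp.snd p q) := by
  intro n i
  have := hp n i
  constructor
  intro f g sq
  have w : f ≫ Fp.fst p q ≫ p = f ≫ Fp.snd p q ≫ q := by
    refine NatTrans.ext (funext fun k => ?_)
    refine ConcreteCategory.hom_ext _ _ fun z => ?_
    exact (f.app k z).2
  have sq' : CommSq (f ≫ Fp.fst p q) (Λ[n + 1, i].ι : (Λ[n + 1, i] : SSet.{0}) ⟶ _) p (g ≫ q) :=
    ⟨by rw [Category.assoc, w, ← Category.assoc, sq.w, Category.assoc]⟩
  refine ⟨⟨{ l := Fp.lift sq'.lift g sq'.fac_right, fac_left := ?_, fac_right := ?_ }⟩⟩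
  · refine NatTrans.ext (funext fun k => ?_)
    refine ConcreteCategory.hom_ext _ _ fun z => ?_
    refine Subtype.ext (Prod.ext ?_ ?_)
    · exact ConcreteCategory.congr_hom (NatTrans.congr_app sq'.fac_left k) z
    · exact (ConcreteCategory.congr_hom (NatTrans.congr_app sq.w k) z).symm
  · rfl

section

variable {C : Type} [SmallCategory C] {P : SP (Wr C)} (S : Sb P)

/-- The equivalence relation `(x, w) ~ (x, w')` for `x ∈ S`. -/
def qS (m : SimplexCategory) (θ : (Wr C)ᵒᵖ) (k : SimplexCategoryᵒᵖ) :
    Setoid ((P.obj θ).obj k × (Fin (θ.unop.len + 1) → Fin (m.len + 1))) where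
  r z z' := z.1 = z'.1 ∧ (z.1 ∈ S.mem θ k ∨ z.2 = z'.2)
  iseqv :=
    { refl := fun _ => ⟨rfl, Or.inr rfl⟩
      symm := fun {z z'} h => ⟨h.1.symm, h.2.elim (fun h' => Or.inl (h.1 ▸ h'))
        fun h' => Or.inr h'.symm⟩
      trans := fun {z z' z''} h h' => ⟨h.1.trans h'.1, by
        rcases h.2 with h2 | h2
        · exact Or.inl h2
        · rcases h'.2 with h3 | h3
          · left
            rw [h.1]
            exact h3
          · exact Or.inr (h2.trans h3)⟩ }

/-- The quotient of `P × E[m]`. -/
noncomputable def Qo (m : SimplexCategory) : SP (Wr C) where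
  obj θ :=
    { obj := fun k => Quotient (qS S m θ k)
      map := fun {k l} α => ↾ Quotient.map
        (fun z : (P.obj θ).obj k × (Fin (θ.unop.len + 1) → Fin (m.len + 1)) =>
          ((P.obj θ).map α z.1, z.2))
        (fun z z' (h : z.1 = z'.1 ∧ (z.1 ∈ S.mem θ k ∨ z.2 = z'.2)) =>
          ⟨congrArg ((P.obj θ).map α) h.1, h.2.imp (fun h' => S.mapk θ α z.1 h') id⟩)
      map_id := fun k => by
        refine ConcreteCategory.hom_ext _ _ fun z => ?_
        induction z using Quotient.inductionOn with
        | h z => exact congrArg (Quotient.mk (qS S m θ k)) (Prod.ext (sset_id _ _) rfl)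
      map_comp := fun {k l r} α β => by
        refine ConcreteCategory.hom_ext _ _ fun z => ?_
        induction z using Quotient.inductionOn with
        | h z => exact congrArg (Quotient.mk (qS S m θ r)) (Prod.ext (sset_comp _ α β _) rfl) }
  map {θ θ'} φ :=
    { app := fun k => ↾ Quotient.map
        (fun z : (P.obj θ).obj k × (Fin (θ.unop.len + 1) → Fin (m.len + 1)) =>
          (((P.map φ).app k z.1, fun i => z.2 (Wr.Hom.f φ.unop i)) :
            (P.obj θ').obj k × (Fin (θ'.unop.len + 1) → Fin (m.len + 1))))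
        (fun z z' (h : z.1 = z'.1 ∧ (z.1 ∈ S.mem θ k ∨ z.2 = z'.2)) =>
          ⟨congrArg ((P.map φ).app k) h.1, h.2.imp (fun h' => S.mapA φ k z.1 h')
            fun h' => congrArg (fun w i => w (Wr.Hom.f φ.unop i)) h'⟩)
      naturality := fun k l α => by
        refine ConcreteCategory.hom_ext _ _ fun z => ?_
        induction z using Quotient.inductionOn with
        | h z => exact congrArg (Quotient.mk (qS S m θ' l)) (Prod.ext (sp_nat P φ α _) rfl) }
  map_id θ := by
    refine NatTrans.ext (funext fun k => ?_)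
    refine ConcreteCategory.hom_ext _ _ fun z => ?_
    induction z using Quotient.inductionOn with
    | h z => exact congrArg (Quotient.mk (qS S m θ k)) (Prod.ext (sp_id P _) rfl)
  map_comp {θ θ' θ''} φ ψ := by
    refine NatTrans.ext (funext fun k => ?_)
    refine ConcreteCategory.hom_ext _ _ fun z => ?_
    induction z using Quotient.inductionOn with
    | h z => exact congrArg (Quotient.mk (qS S m θ'' k)) (Prod.ext (sp_comp P φ ψ _) rfl)

/-- The cosimplicial structure of the quotients. -/
noncomputable def Qm {m n : SimplexCategory} (α : m ⟶ n) : Qo S m ⟶ Qo S n where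
  app θ :=
    { app := fun k => ↾ Quotient.map
        (fun z : (P.obj θ).obj k × (Fin (θ.unop.len + 1) → Fin (m.len + 1)) =>
          ((z.1, fun i => α.toOrderHom (z.2 i)) :
            (P.obj θ).obj k × (Fin (θ.unop.len + 1) → Fin (n.len + 1))))
        (fun z z' (h : z.1 = z'.1 ∧ (z.1 ∈ S.mem θ k ∨ z.2 = z'.2)) =>
          ⟨h.1, h.2.imp id fun h' => congrArg (fun w i => α.toOrderHom (w i)) h'⟩)
      naturality := fun k l β => by
        refine ConcreteCategory.hom_ext _ _ fun z => ?_
        induction z using Quotient.inductionOn with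
        | h z => rfl }
  naturality θ θ' φ := by
    refine NatTrans.ext (funext fun k => ?_)
    refine ConcreteCategory.hom_ext _ _ fun z => ?_
    induction z using Quotient.inductionOn with
    | h z => rfl

/-- The quotients as a cosimplicial object. -/
noncomputable def Qc : SimplexCategory ⥤ SP (Wr C) where
  obj m := Qo S m
  map α := Qm S α
  map_id m := by
    refine NatTrans.ext (funext fun θ => NatTrans.ext (funext fun k => ?_))
    refine ConcreteCategory.hom_ext _ _ fun z => ?_
    induction z using Quotient.inductionOn with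
    | h z => rfl
  map_comp α β := by
    refine NatTrans.ext (funext fun θ => NatTrans.ext (funext fun k => ?_))
    refine ConcreteCategory.hom_ext _ _ fun z => ?_
    induction z using Quotient.inductionOn with
    | h z => rfl

/-- The quotient map. -/
noncomputable def Qπ : (E0 C).obj P ⟶ Qc S where
  app m :=
    { app := fun θ =>
        { app := fun _ => ↾ fun z => Quotient.mk (qS S _ _ _) z
          naturality := fun _ _ _ => rfl }
      naturality := fun _ _ _ => rfl }
  naturality _ _ _ := rfl

/-- The projection. -/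
noncomputable def Qv : Qc S ⟶ cc P where
  app m :=
    { app := fun θ =>
        { app := fun k => ↾ Quotient.lift
            (fun z : (P.obj θ).obj k × (Fin (θ.unop.len + 1) → Fin (m.len + 1)) => z.1)
            (fun z z' (h : z.1 = z'.1 ∧ (z.1 ∈ S.mem θ k ∨ z.2 = z'.2)) => h.1)
          naturality := fun k l α => by
            refine ConcreteCategory.hom_ext _ _ fun z => ?_
            induction z using Quotient.inductionOn with
            | h z => rfl }
      naturality := fun θ θ' φ => by
        refine NatTrans.ext (funext fun k => ?_)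
        refine ConcreteCategory.hom_ext _ _ fun z => ?_
        induction z using Quotient.inductionOn with
        | h z => rfl }
  naturality m n α := by
    refine NatTrans.ext (funext fun θ => NatTrans.ext (funext fun k => ?_))
    refine ConcreteCategory.hom_ext _ _ fun z => ?_
    induction z using Quotient.inductionOn with
    | h z => rfl

/-- The section `x ↦ (x, 0)`. -/
noncomputable def Qs (m : SimplexCategory) : P ⟶ Qo S m where
  app θ :=
    { app := fun k => ↾ fun x => Quotient.mk (qS S m θ k) (x, fun _ => 0)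
      naturality := fun _ _ _ => rfl }
  naturality _ _ _ := rfl

/-- The first projection. -/
noncomputable def relFst (m : SimplexCategory) : (E0rel S m 0).toSP ⟶ P where
  app θ :=
    { app := fun k => ↾ fun z => z.1.1
      naturality := fun _ _ _ => rfl }
  naturality _ _ _ := rfl

theorem Qs_isPushout (m : SimplexCategory) :
    IsPushout (E0rel S m 0).ι (relFst S m) ((Qπ S).app m) (Qs S m) := by
  refine isPushout_of_elem _ _ _ _ ?_ ?_ ?_ ?_ ?_ ?_
  · refine NatTrans.ext (funext fun θ => NatTrans.ext (funext fun k => ?_))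
    refine ConcreteCategory.hom_ext _ _ fun z => ?_
    refine Quotient.sound (s := qS S m θ k) ⟨rfl, ?_⟩
    exact z.2.imp id fun h => funext h
  · intro θ k x y h
    exact Subtype.ext h
  · intro θ k x y h
    exact (Quotient.exact h : (qS S m θ k).r _ _).1
  · intro θ k x y hx _ h
    have h' : x.1 = y.1 ∧ (x.1 ∈ S.mem θ k ∨ x.2 = y.2) :=
      (Quotient.exact h : (qS S m θ k).r _ _)
    refine Prod.ext h'.1 (h'.2.resolve_left fun h2 => hx ⟨⟨x, Or.inl h2⟩, rfl⟩)
  · rintro θ k x hx ⟨y, hy⟩
    have h' : y = x.1 ∧ (y ∈ S.mem θ k ∨ (fun _ => 0) = x.2) :=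
      (Quotient.exact hy : (qS S m θ k).r _ _)
    refine hx ⟨⟨x, ?_⟩, rfl⟩
    rcases h'.2 with h2 | h2
    · exact Or.inl (h'.1 ▸ h2)
    · exact Or.inr fun i => (congrFun h2 i).symm
  · intro θ k z
    obtain ⟨w, hw⟩ := Quotient.exists_rep z
    exact Or.inl ⟨w, hw⟩

/-- The comparison of `Yc Q X` with the fibre product. -/
noncomputable def Qfwd (X : SP (Wr C)) :
    Yc (Qc S) X ⟶ Fp (Yc.pre ((E0 C).map S.ι) X) (augY S.toSP X) where
  app m := ↾ fun χ => ⟨((MpS.ofHom m.unop ((Qπ S).app m.unop)).comp χ,
    (MpS.ofHom m.unop (S.ι ≫ Qs S m.unop)).comp χ), by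
      refine MpS.ext ?_
      funext a k s z
      refine congrArg (MpS.app χ a k s) ?_
      exact Quotient.sound (s := qS S m.unop a k) ⟨rfl, Or.inl z.1.2⟩⟩
  naturality m n α := by
    refine ConcreteCategory.hom_ext _ _ fun χ => ?_
    refine Subtype.ext (Prod.ext rfl ?_)
    refine MpS.ext ?_
    funext a k s z
    refine congrArg (MpS.app χ a k (s ≫ α.unop)) ?_
    exact Quotient.sound (s := qS S m.unop a k) ⟨rfl, Or.inl z.2⟩

theorem Qfwd_isIso (X : SP (Wr C)) : IsIso (Qfwd S X) := by
  have : ∀ m, IsIso ((Qfwd S X).app m) := by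
    intro m
    rw [isIso_iff_bijective]
    constructor
    · intro χ χ' h
      refine MpS.ext ?_
      funext a k s z
      obtain ⟨w, rfl⟩ := Quotient.exists_rep z
      have h1 := congrArg (fun t => t.1.1) h
      exact congrFun (congrFun (congrFun (congrFun (congrArg MpS.app h1) a) k) s) w
    · rintro ⟨⟨φ, ψ⟩, h⟩
      have h' : ∀ a k (s : k.unop ⟶ m.unop) (x : ((S.toSP).obj a).obj k)
          (w : Fin (a.unop.len + 1) → Fin (m.unop.len + 1)),
          φ.app a k s (x.1, w) = ψ.app a k s x := by
        intro a k s x w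
        exact congrFun (congrFun (congrFun (congrFun (congrArg MpS.app h) a) k) s) (x, w)
      refine ⟨
        { app := fun a k s => Quotient.lift (fun z => φ.app a k s z) ?_
          nat_left := ?_
          nat_right := ?_ }, ?_⟩
      · rintro ⟨x, w⟩ ⟨y, w'⟩ ⟨h1, h2⟩
        obtain rfl : x = y := h1
        rcases h2 with h2 | h2
        · exact (h' a k s ⟨x, h2⟩ w).trans (h' a k s ⟨x, h2⟩ w').symm
        · obtain rfl : w = w' := h2
          rfl
      · intro a b f k s z
        obtain ⟨w, rfl⟩ := Quotient.exists_rep z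
        exact φ.nat_left f k s w
      · intro a k l g s z
        obtain ⟨w, rfl⟩ := Quotient.exists_rep z
        exact φ.nat_right a g s w
      · refine Subtype.ext (Prod.ext rfl ?_)
        refine MpS.ext ?_
        funext a k s x
        exact h' a k s x fun _ => 0
  exact NatIso.isIso_of_isIso_app _

theorem loc_ι_of_top {A : Type} [SmallCategory A] {X : SP A} (hX : InjFib X) {P : SP A}
    (T : Sb P) (h : LocT X T ⊤) : Loc X T.ι := by
  obtain ⟨_, h⟩ := h
  have hi : IsIso (Sb.ι (⊤ : Sb P)) :=
    isIso_of_bij _ fun a k => ⟨fun x y h => Subtype.ext h, fun x => ⟨⟨x, trivial⟩, rfl⟩⟩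
  exact loc_comp hX h (loc_of_isIso (Sb.ι (⊤ : Sb P)))

end

/-- `Mp P X` is `Yc` of the constant cosimplicial object. -/
def ccIso {A : Type} [SmallCategory A] (P X : SP A) : Yc (cc P) X ≅ Mp P X where
  hom :=
    { app := fun m => ↾ fun φ => φ
      naturality := fun _ _ _ => rfl }
  inv :=
    { app := fun m => ↾ fun φ => φ
      naturality := fun _ _ _ => rfl }
  hom_inv_id := rfl
  inv_hom_id := rfl

theorem relMap_hoEq {C : Type} [SmallCategory C] {X : SP (Wr C)} (hX : InjFib X)
    {P : SP (Wr C)} (S : Sb P) (h : ∀ m, LocT X (E0rel S m 0) ⊤)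
    (hK : SSet.KanComplex (Yc ((E0 C).obj P) X))
    (hF : KanFib (Yc.pre ((E0 C).map S.ι) X)) : HoEq (relMap S X) := by
  have hs : ∀ m, Loc X (Qs S m) := fun m =>
    loc_pushout hX (Qs_isPushout S m) (fun a => mono_of_inj _
      (fun a k x y h => Subtype.ext h) a) (loc_ι_of_top hX _ (h m))
  have hv : ∀ m, Loc X ((Qv S).app m) := fun m => by
    have e : Loc X (𝟙 P) := loc_of_isIso _
    exact loc_of_comp_left (g := (Qv S).app m) hX (hs m) e
  have hP : SSet.KanComplex (Mp P X) := Pool.Agent.Helper83.FL4.Mp_kan P hX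
  have hS : SSet.KanComplex (Mp S.toSP X) := Pool.Agent.Helper83.FL4.Mp_kan S.toSP hX
  have hc : SSet.KanComplex (Yc (cc P) X) := kan_of_iso (ccIso P X).hom hP
  have hFp : SSet.KanComplex (Fp (Yc.pre ((E0 C).map S.ι) X) (augY S.toSP X)) :=
    Pool.Agent.Helper83.FL4.kan_of_kanFib (Fp_snd_kanFib _ _ hF) hS
  have hi := Qfwd_isIso S X
  have hQ : SSet.KanComplex (Yc (Qc S) X) := kan_of_iso (Qfwd S X) hFp
  have h1 := Yc_pre_hoEq hX (Qv S) hv hQ hc
  exact Pool.Agent.Helper88.FL.hoEq_of_arrow_iso (ccIso P X) (asIso (Qfwd S X)) rfl h1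

end Pool.Agent.Helper55.FL2
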