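import Pool.Agent.Helper55.FL2.TruncC

/-! FL2-F1b, part 4: `tr_down` and `tr_up`. -/

open CategoryTheory MonoidalCategory Opposite

set_option autoImplicit false

namespace Pool.Agent.Helper55.FL2

open FL
open Helper41FL2 (sg_succ_iff cj_succ_iff isCat_iff RR_vt exists_HmRR)
open Pool.Agent.Helper61.FL2 (spLoc_iff ES_of_arrow_iso ES_comp ES_of_objHoEq ES_of_comp_left)
open Pool.Agent.Helper71.FL2 (ES_objHoEq)
open Pool.Agent.Helper25.FL2 (isCat_of_truncated_zero)
open Pool.Agent.Helper91.FL2 (Rs_injFib Rs_Hm_isIso)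
open Pool.Agent.Helper25.FL2 (vu hmIso hom_ext_zero unit_toPt toPt_unit unit_inj tr_vt_bij)
open Pool.Agent.Helper88.FL (hoEq_comp hoEq_of_comp_left hoEq_of_comp_right hoEq_of_isIso
  hoEq_of_arrow_iso)
open Pool.Agent.Helper54.FL2 (cn_map cn_trans cn_refl kan_fb)
open Helper41FL2 (RR_injFib RR_objKan RR_objHoEq RR_map_objHoEq)
open Helper53FL2 (Hm_injFib InjFib.vfib)

theorem truncated_const {n : ℕ} (X : SP (Th (n + 1))) :
    Truncated 0 ((tr (n + 1) 0).op ⋙ X) := by
  intro θ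
  have e : ((tr (n + 1) 0).op ⋙ X).map ((trUnit (n + 1) 0).app θ).op =
    𝟙 (X.obj (op (Wr.pt : Wr (Th n)))) := X.map_id (op (Wr.pt : Wr (Th n)))
  have h : HoEq (𝟙 (X.obj (op (Wr.pt : Wr (Th n))))) := hoEq_of_isIso _
  rw [← e] at h
  exact h

theorem tr_down_aux : ∀ (n : ℕ) {X Y : SP (Th n)} (_ : Sg n X) (_ : IsCat n Y) (i : ℕ)
    (e' : (RR (Th n)).obj ((tr n i).op ⋙ X) ⟶ Y) (_ : ES n n e'),
    ES n i ((RR (Th n)).η ((tr n i).op ⋙ X) ≫ e') ∧ Truncated i Y := by
  intro n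
  induction n with
  | zero =>
    intro X Y hX hY i e' he
    have hK := objKan_tr i (objKan_of_inj hX.1)
    refine ⟨?_, ?_⟩
    · have he' : HoEq (e'.app (op (ptT 0))) := he
      exact hoEq_comp (hK _) (RR_objKan hK _) (objKan_of_inj hY.inj _) (RR_objHoEq hK _) he'
    · intro θ
      have e : Y.map ((trUnit 0 i).app θ).op = 𝟙 (Y.obj (op θ)) := Y.map_id (op θ)
      have h : HoEq (𝟙 (Y.obj (op θ))) := hoEq_of_isIso _
      rw [← e] at h
      exact h
  | succ n ih =>
    intro X Y hX hY i e' he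
    have hXK := objKan_of_inj hX.1
    have hYK := objKan_of_inj hY.inj
    cases i with
    | zero =>
      have hK := objKan_tr 0 hXK
      have hI := RR_injFib hK
      have hT : Truncated 0 ((RR (Th (n + 1))).obj ((tr (n + 1) 0).op ⋙ X)) :=
        truncated_of_objHoEq hK (RR_objKan hK) _ (RR_objHoEq hK) (truncated_const X)
      have hC := isCat_of_truncated_zero hI hT
      have h1 : ObjHoEq e' := ES_objHoEq hC hY he
      refine ⟨?_, truncated_of_objHoEq (RR_objKan hK) hYK e' h1 hT⟩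
      exact hoEq_comp (hK _) (RR_objKan hK _) (hYK _) (RR_objHoEq hK _) (h1 _)
    | succ i =>
      have hK := objKan_tr (i + 1) hXK
      have hsurj : ∀ y : Vt (C := Th n) Y, ∃ a : Vt (C := Th n) ((tr (n + 1) (i + 1)).op ⋙ X),
          Cn (Y.obj (op (ptT (n + 1))))
            (vtMap (C := Th n) ((RR (Th (n + 1))).η ((tr (n + 1) (i + 1)).op ⋙ X) ≫ e') a) y := by
        intro y
        obtain ⟨z, hz⟩ := he.1 y
        obtain ⟨a, ha⟩ := RR_vt (C := Th n) hK z
        exact ⟨a, cn_trans (hYK _) (cn_map (e'.app (op (ptT (n + 1)))) ha) hz⟩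
      have main : ∀ a b : Vt (C := Th n) ((tr (n + 1) (i + 1)).op ⋙ X),
          ES n i (HmMap (C := Th n)
            ((RR (Th (n + 1))).η ((tr (n + 1) (i + 1)).op ⋙ X) ≫ e') a b) ∧
          Truncated i (Hm (C := Th n) Y
            (vtMap (C := Th n) ((RR (Th (n + 1))).η ((tr (n + 1) (i + 1)).op ⋙ X) ≫ e') a)
            (vtMap (C := Th n) ((RR (Th (n + 1))).η ((tr (n + 1) (i + 1)).op ⋙ X) ≫ e') b)) := by
        intro a b
        obtain ⟨e₁, h1, h2⟩ := hm_data hX.1 hY.inj i e' a b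
        obtain ⟨h3, h4⟩ := ih (hm_sg hX _ _) (hm_isCat hY _ _) i e₁ (h2.2 (he.2 _ _))
        refine ⟨?_, h4⟩
        exact ES_of_arrow_iso (hmIso (C := Th n) (tr n i) (trUnit n i) X a b).symm
          (Iso.refl _) ((Category.comp_id _).trans
            (((hmIso (C := Th n) (tr n i) (trUnit n i) X a b).inv_hom_id_assoc _).symm.trans
              (congrArg ((hmIso (C := Th n) (tr n i) (trUnit n i) X a b).inv ≫ ·) h1))) h3
      refine ⟨⟨hsurj, fun a b => (main a b).1⟩, ?_⟩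
      have hSp : SpLoc (C := Th n) Y := ((sg_succ_iff hY.inj Set.univ
        fun z => ⟨z, trivial, cn_refl z⟩).1 (isCat_iff.1 hY).1).1
      refine truncated_of_Hm (InjFib.vfib (C := Th n) hY.inj)
        ((spLoc_iff (C := Th n) hY.inj).1 hSp)
        (Set.range fun a => vtMap (C := Th n)
          ((RR (Th (n + 1))).η ((tr (n + 1) (i + 1)).op ⋙ X) ≫ e') a) ?_ ?_
      · intro y
        obtain ⟨a, ha⟩ := hsurj y
        exact ⟨_, ⟨a, rfl⟩, ha⟩
      · rintro _ ⟨a, rfl⟩ _ ⟨b, rfl⟩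
        exact (main a b).2

theorem tr_up_aux : ∀ (n : ℕ) {X D : SP (Th n)} (_ : Sg n X) (_ : Sg n D) (i : ℕ)
    (_ : Truncated i D) (e' : (RR (Th n)).obj ((tr n i).op ⋙ X) ⟶ D)
    (_ : ES n i ((RR (Th n)).η ((tr n i).op ⋙ X) ≫ e')), ES n n e' := by
  intro n
  induction n with
  | zero =>
    intro X D hX hD i hT e' he
    have hK := objKan_tr i (objKan_of_inj hX.1)
    have he' : HoEq (((RR (Th 0)).η ((tr 0 i).op ⋙ X)).app (op (ptT 0)) ≫
      e'.app (op (ptT 0))) := he
    exact hoEq_of_comp_left (hK _) (RR_objKan hK _) (objKan_of_inj hD.1 _)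
      (RR_objHoEq hK _) he'
  | succ n ih =>
    intro X D hX hD i hT e' he
    have hXK := objKan_of_inj hX.1
    have hDK := objKan_of_inj hD.1
    cases i with
    | zero =>
      have hK := objKan_tr 0 hXK
      have hI := RR_injFib hK
      have he' : HoEq (((RR (Th (n + 1))).η ((tr (n + 1) 0).op ⋙ X) ≫ e').app
        (op (ptT (n + 1)))) := he
      refine ES_of_objHoEq hI hD.1 fun θ => ?_
      refine hoEq_of_comp_left (hK _) (RR_objKan hK _) (hDK _) (RR_objHoEq hK θ) ?_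
      have h1 := ((RR (Th (n + 1))).η ((tr (n + 1) 0).op ⋙ X) ≫ e').naturality
        ((trUnit (n + 1) 0).app θ.unop).op
      refine hoEq_of_comp_left (hK _) (hK _) (hDK _) (truncated_const X θ.unop) ?_
      have h2 := hoEq_comp (hK _) (hDK _) (hDK _) he' (hT θ.unop)
      exact (congrArg HoEq h1).mpr h2
    | succ i =>
      have hK := objKan_tr (i + 1) hXK
      have hI := RR_injFib hK
      have main : ∀ a b : Vt (C := Th n) ((tr (n + 1) (i + 1)).op ⋙ X),
          ES n n (HmMap (C := Th n) e'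
            (vtMap (C := Th n) ((RR (Th (n + 1))).η ((tr (n + 1) (i + 1)).op ⋙ X)) a)
            (vtMap (C := Th n) ((RR (Th (n + 1))).η ((tr (n + 1) (i + 1)).op ⋙ X)) b)) := by
        intro a b
        obtain ⟨e₁, h1, h2⟩ := hm_data hX.1 hD.1 i e' a b
        refine h2.1 (ih (hm_sg hX _ _) (hm_sg hD _ _) i
          (truncated_Hm (InjFib.vfib (C := Th n) hD.1) hT _ _) e₁ ?_)
        exact ES_of_arrow_iso (hmIso (C := Th n) (tr n i) (trUnit n i) X a b)
          (Iso.refl _) ((Category.comp_id _).trans h1.symm) (he.2 a b)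
      -- restriction to the vertices of `X ∘ t`
      let η := (RR (Th (n + 1))).η ((tr (n + 1) (i + 1)).op ⋙ X)
      let W : SP (Th (n + 1)) := Rs (C := Th n)
        ((RR (Th (n + 1))).obj ((tr (n + 1) (i + 1)).op ⋙ X)) (η.app (op (ptT (n + 1))))
      let q : W ⟶ (RR (Th (n + 1))).obj ((tr (n + 1) (i + 1)).op ⋙ X) :=
        Rs.fst (C := Th n) _ (η.app (op (ptT (n + 1))))
      have hW : InjFib W := Rs_injFib (C := Th n) hI (hK _) _
      have hq1 : ∀ w : Vt (C := Th n) W, ∃ a : Vt (C := Th n) ((tr (n + 1) (i + 1)).op ⋙ X),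
          vtMap (C := Th n) q w = vtMap (C := Th n) η a := by
        intro w
        refine ⟨w.1.2 0, ?_⟩
        refine Eq.trans ?_ (w.2 0)
        have e0 : vtx (Wr.pt : Wr (Th n)) 0 = 𝟙 _ := Wr.toPt_unique _ _
        refine (sp_id ((RR (Th (n + 1))).obj ((tr (n + 1) (i + 1)).op ⋙ X)) w.1.1).symm.trans ?_
        exact congrArg (fun t => (((RR (Th (n + 1))).obj
          ((tr (n + 1) (i + 1)).op ⋙ X)).map (Quiver.Hom.op t)).app _ w.1.1) e0.symm
      have hq2 : ∀ a : Vt (C := Th n) ((tr (n + 1) (i + 1)).op ⋙ X),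
          ∃ w : Vt (C := Th n) W, vtMap (C := Th n) q w = vtMap (C := Th n) η a := fun a =>
        ⟨vtMap (C := Th n) (toRs (C := Th n) η) a, rfl⟩
      have hiso : ∀ w w' : Vt (C := Th n) W, ES n n (HmMap (C := Th n) q w w') := by
        intro w w'
        have := Rs_Hm_isIso (C := Th n) (η.app (op (ptT (n + 1)))) w w'
        exact ES_of_objHoEq (Hm_injFib (C := Th n) hW _ _) (Hm_injFib (C := Th n) hI _ _)
          (objHoEq_of_isIso _)
      have hES : ES (n + 1) (n + 1) q := by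
        refine ⟨fun z => ?_, hiso⟩
        obtain ⟨a, ha⟩ := RR_vt (C := Th n) hK z
        obtain ⟨w, hw⟩ := hq2 a
        exact ⟨w, by rw [hw]; exact ha⟩
      have hES' : ES (n + 1) (n + 1) (q ≫ e') := by
        refine ⟨fun y => ?_, fun w w' => ?_⟩
        · obtain ⟨a, ha⟩ := he.1 y
          obtain ⟨w, hw⟩ := hq2 a
          refine ⟨w, ?_⟩
          have h1 : vtMap (C := Th n) (q ≫ e') w = vtMap (C := Th n) (η ≫ e') a :=
            congrArg (vtMap (C := Th n) e') hw
          exact (congrArg (fun t => Cn (D.obj (op (ptT (n + 1)))) t y) h1).mpr ha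
        · have h1 : ∀ z z' : Vt (C := Th n)
              ((RR (Th (n + 1))).obj ((tr (n + 1) (i + 1)).op ⋙ X)),
              (∃ a, z = vtMap (C := Th n) η a) → (∃ b, z' = vtMap (C := Th n) η b) →
              ES n n (HmMap (C := Th n) e' z z') := by
            rintro _ _ ⟨a, rfl⟩ ⟨b, rfl⟩
            exact main a b
          exact ES_comp (Hm_injFib (C := Th n) hI _ _) (Hm_injFib (C := Th n) hD.1 _ _)
            (Hm_injFib (C := Th n) hW _ _) (hiso w w') (h1 _ _ (hq1 w) (hq1 w'))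
      exact ES_of_comp_left hW hI hD.1 hES hES'

variable {n : ℕ}

theorem tr_down {X Y : SP (Th n)} (hX : Sg n X) (hY : IsCat n Y) {i : ℕ}
    (e : (tr n i).op ⋙ X ⟶ Y) (e' : (RR (Th n)).obj ((tr n i).op ⋙ X) ⟶ Y)
    (h : (RR (Th n)).η _ ≫ e' = e) (he : ES n n e') : ES n i e ∧ Truncated i Y := by
  subst h
  exact tr_down_aux n hX hY i e' he

theorem tr_up {X D : SP (Th n)} (hX : Sg n X) (hD : Sg n D) {i : ℕ} (hT : Truncated i D)
    (e : (tr n i).op ⋙ X ⟶ D) (e' : (RR (Th n)).obj ((tr n i).op ⋙ X) ⟶ D)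
    (h : (RR (Th n)).η _ ≫ e' = e) (he : ES n i e) : ES n n e' := by
  subst h
  exact tr_up_aux n hX hD i hT e' he

end Pool.Agent.Helper55.FL2
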