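import Pool.Agent.Helper55.FL2.GPb

/-! FL2-G4, part 3: `Yc.pre u X` is a trivial fibration if `u` is a local monomorphism. -/

open CategoryTheory MonoidalCategory Opposite Simplicial

set_option autoImplicit false

namespace Pool.Agent.Helper55.FL2

open FL Pool.Agent.Helper45.LOC
open Pool.Agent.Helper81.FL2 (cface_inf)

section

variable {A : Type} [SmallCategory A] {X : SP A}

theorem mem_bdry {n : ℕ} {k : SimplexCategoryᵒᵖ} (s : (Δ[n] : SSet.{0}).obj k) :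
    s ∈ (∂Δ[n] : (Δ[n] : SSet.{0}).Subcomplex).obj k ↔
      ¬ Function.Surjective (SSet.stdSimplex.objEquiv s).toOrderHom := Iff.rfl

theorem Yc_pre_trivFib (hX : InjFib X) {F G : SimplexCategory ⥤ SP A} (u : F ⟶ G)
    (hu : ∀ m a, Mono ((u.app m).app a)) (h : ∀ m, Loc X (u.app m)) :
    TrivFib (Yc.pre u X) := by
  intro n
  constructor
  intro b c sq
  have hsq : ∀ (k : SimplexCategoryᵒᵖ) (s : (∂Δ[n] : SSet.{0}).obj k),
      (Yc.pre u X).app k (b.app k s) = c.app k s.1 := fun k s =>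
    ConcreteCategory.congr_hom (NatTrans.congr_app sq.w k) s
  let id' : (Δ[n] : SSet.{0}).obj (op ⦋n⦌) := SSet.stdSimplex.objEquiv.symm (𝟙 ⦋n⦌)
  let mk : ∀ e : ⦋n⦌ ⟶ ⦋n⦌, NS e → (∂Δ[n] : SSet.{0}).obj (op ⦋n⦌) := fun e he =>
    ⟨SSet.stdSimplex.objEquiv.symm e, fun hs => by
      obtain ⟨j, hj⟩ := he
      obtain ⟨i, hi⟩ := hs j
      exact hj i hi⟩
  have hmk : ∀ (k : SimplexCategoryᵒᵖ) (α : k.unop ⟶ ⦋n⦌) (e : ⦋n⦌ ⟶ ⦋n⦌) (he : NS e)
      (hs : SSet.stdSimplex.objEquiv.symm (α ≫ e) ∈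
        (∂Δ[n] : (Δ[n] : SSet.{0}).Subcomplex).obj k),
      (∂Δ[n] : SSet.{0}).map α.op (mk e he) = ⟨SSet.stdSimplex.objEquiv.symm (α ≫ e), hs⟩ :=
    fun _ _ _ _ _ => rfl
  obtain ⟨φ, hφ, hφ'⟩ := exists_ext hX u hu ⦋n⦌ (h _) (c.app (op ⦋n⦌) id')
    (fun e he => b.app (op ⦋n⦌) (mk e he)) (by
      intro e e' U he' hU h1 h2
      have h3 : e ≫ e' = e := comp_rt he' e hU
      have h4 : (∂Δ[n] : SSet.{0}).map e.op (mk e' h2) = mk e h1 :=
        Subtype.ext (congrArg SSet.stdSimplex.objEquiv.symm h3)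
      show b.app (op ⦋n⦌) (mk e h1) = (Yc G X).map e.op (b.app (op ⦋n⦌) (mk e' h2))
      rw [← h4]
      exact sset_nat b e.op (mk e' h2)) (by
      intro e h1
      have h2 := hsq (op ⦋n⦌) (mk e h1)
      refine h2.trans ?_
      have h3 : (mk e h1).1 = (Δ[n] : SSet.{0}).map e.op id' := by
        show SSet.stdSimplex.objEquiv.symm e = SSet.stdSimplex.objEquiv.symm (e ≫ 𝟙 _)
        rw [Category.comp_id]
      rw [h3]
      exact sset_nat c e.op id')
  refine ⟨⟨{ l := SSet.yonedaEquiv.symm φ, fac_left := ?_, fac_right := ?_ }⟩⟩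
  · refine NatTrans.ext (funext fun k => ?_)
    refine ConcreteCategory.hom_ext _ _ fun s => ?_
    obtain ⟨s, hs⟩ := s
    -- the image
    let α : k.unop ⟶ ⦋n⦌ := SSet.stdSimplex.objEquiv s
    let U : Finset (Fin (n + 1)) := Finset.univ.image α.toOrderHom
    have hU : U ≠ Finset.univ := by
      intro hU
      refine hs fun j => ?_
      have hj : j ∈ U := hU ▸ Finset.mem_univ j
      obtain ⟨i, _, hi⟩ := Finset.mem_image.1 hj
      exact ⟨i, hi⟩
    have hαU : ∀ i, α.toOrderHom i ∈ U := fun i => Finset.mem_image_of_mem _ (Finset.mem_univ i)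
    obtain ⟨e, he⟩ := exists_rt (N := ⦋n⦌) (U := U) ⟨_, hαU 0⟩
    have hn : NS e := ns_of_rt hU he.1
    have hαe : α ≫ e = α := comp_rt he α hαU
    have h1 : (⟨s, hs⟩ : (∂Δ[n] : SSet.{0}).obj k) = (∂Δ[n] : SSet.{0}).map α.op (mk e hn) := by
      refine Subtype.ext ?_
      show s = SSet.stdSimplex.objEquiv.symm (α ≫ e)
      rw [hαe]
      exact (SSet.stdSimplex.objEquiv.symm_apply_apply s).symm
    show (Yc G X).map α.op φ = b.app k ⟨s, hs⟩
    rw [h1]
    refine Eq.trans ?_ (sset_nat b α.op (mk e hn)).symm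
    refine MpS.ext ?_
    funext a m t x
    exact hφ' e U hU he hn a m (t ≫ α) (((G.map α).app a).app m x)
      ((cos_comp G α e x).symm.trans (by rw [hαe])) (by rw [Category.assoc, hαe])
  · apply SSet.yonedaEquiv.injective
    show (Yc.pre u X).app (op ⦋n⦌) ((Yc G X).map (𝟙 _) φ) = c.app (op ⦋n⦌) id'
    exact (congrArg ((Yc.pre u X).app (op ⦋n⦌)) (sset_id (Yc G X) φ)).trans hφ

end

end Pool.Agent.Helper55.FL2
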