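import Pool.Agent.Helper58.FL2.Loc
import Pool.Agent.Helper88.FL.Htpy
import Pool.Agent.Helper45.FL.Triv
import Pool.Agent.Helper36.FL.Cyl

/-! FL2-G1: tensors with simplicial sets preserve local maps; the elementwise criterion for
pushouts. -/

open CategoryTheory MonoidalCategory Opposite Simplicial Limits

set_option autoImplicit false

namespace Pool.Agent.Helper55.FL2

open FL

section Tensor

variable {A : Type} [SmallCategory A] {X : SP A}

/-- Partial evaluation of a map out of `P × K`. -/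
def cur {P : SP A} {K : SSet.{0}} {m k : SimplexCategory} (φ : MpS (tn P K) X m) (s : k ⟶ m)
    (κ : K.obj (op k)) : MpS P X k where
  app a l t p := φ.app a l (t ≫ s) (p, K.map t.op κ)
  nat_left {a b} f l t p := φ.nat_left f l (t ≫ s) (p, K.map t.op κ)
  nat_right a {l l'} g t p := by
    refine Eq.trans ?_ (φ.nat_right a g (t ≫ s) (p, K.map t.op κ))
    rw [Category.assoc]
    exact congrArg (fun z => φ.app a l' (g.unop ≫ t ≫ s) ((P.obj a).map g p, z))
      (sset_comp K t.op g κ)

theorem cur_res {P : SP A} {K : SSet.{0}} {m k l : SimplexCategory} (φ : MpS (tn P K) X m)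
    (s : k ⟶ m) (t : l ⟶ k) (κ : K.obj (op k)) :
    cur φ (t ≫ s) (K.map t.op κ) = (cur φ s κ).res t := by
  refine MpS.ext ?_
  funext a r q p
  show φ.app a r (q ≫ t ≫ s) (p, K.map q.op (K.map t.op κ)) =
    φ.app a r ((q ≫ t) ≫ s) (p, K.map (q ≫ t).op κ)
  rw [Category.assoc]
  exact congrArg (fun z => φ.app a r (q ≫ t ≫ s) (p, z)) (sset_comp K t.op q.op κ).symm

theorem cur_res' {P : SP A} {K : SSet.{0}} {m n k : SimplexCategory} (φ : MpS (tn P K) X m)
    (α : n ⟶ m) (s : k ⟶ n) (κ : K.obj (op k)) : cur (φ.res α) s κ = cur φ (s ≫ α) κ := by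
  refine MpS.ext ?_
  funext a r q p
  show φ.app a r ((q ≫ s) ≫ α) (p, K.map q.op κ) = φ.app a r (q ≫ s ≫ α) (p, K.map q.op κ)
  rw [Category.assoc]

theorem cur_app {P : SP A} {K : SSet.{0}} {m : SimplexCategory} (φ : MpS (tn P K) X m)
    (a : Aᵒᵖ) (k : SimplexCategoryᵒᵖ) (s : k.unop ⟶ m) (κ : K.obj k) (p : (P.obj a).obj k) :
    (cur φ s κ).app a k (𝟙 _) p = φ.app a k s (p, κ) := by
  show φ.app a k (𝟙 _ ≫ s) (p, K.map (𝟙 k) κ) = _
  rw [Category.id_comp]
  exact congrArg (fun z => φ.app a k s (p, z)) (sset_id K κ)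

variable {P Q R : SP A}

/-- The extension of a map of mapping spaces to tensors, on simplices. -/
def exS (K : SSet.{0}) (g : Mp P X ⟶ Mp Q X) {m : SimplexCategory} (φ : MpS (tn P K) X m) :
    MpS (tn Q K) X m where
  app a k s z := (g.app k (cur φ s z.2) : MpS Q X k.unop).app a k (𝟙 _) z.1
  nat_left {a b} f k s z := (g.app k (cur φ s z.2) : MpS Q X k.unop).nat_left f k (𝟙 _) z.1
  nat_right a {k l} α s z := by
    show (g.app l (cur φ (α.unop ≫ s) (K.map α z.2)) : MpS Q X l.unop).app a l (𝟙 _)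
      ((Q.obj a).map α z.1) = _
    have h1 : cur φ (α.unop ≫ s) (K.map α z.2) = (cur φ s z.2).res α.unop :=
      cur_res φ s α.unop z.2
    have h2 : (g.app l ((cur φ s z.2).res α.unop) : MpS Q X l.unop) =
        (g.app k (cur φ s z.2) : MpS Q X k.unop).res α.unop :=
      sset_nat g α (cur φ s z.2)
    rw [h1]
    refine (congrArg (fun t : MpS Q X l.unop => t.app a l (𝟙 _) ((Q.obj a).map α z.1)) h2).trans ?_
    refine Eq.trans ?_ ((g.app k (cur φ s z.2) : MpS Q X k.unop).nat_right a α (𝟙 _) z.1)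
    show (g.app k (cur φ s z.2) : MpS Q X k.unop).app a l (𝟙 _ ≫ α.unop) _ =
      (g.app k (cur φ s z.2) : MpS Q X k.unop).app a l (α.unop ≫ 𝟙 _) _
    rw [Category.id_comp, Category.comp_id]

/-- The extension of a map of mapping spaces to tensors. -/
def ex0 (K : SSet.{0}) (g : Mp P X ⟶ Mp Q X) : Mp (tn P K) X ⟶ Mp (tn Q K) X where
  app m := ↾ fun φ => exS K g φ
  naturality m n α := by
    refine ConcreteCategory.hom_ext _ _ fun φ => ?_
    refine MpS.ext ?_
    funext a k s z
    exact congrArg (fun t : MpS P X k.unop =>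
      (g.app k t : MpS Q X k.unop).app a k (𝟙 _) z.1) (cur_res' φ α.unop s z.2)

theorem cur_exS (K : SSet.{0}) (g : Mp P X ⟶ Mp Q X) {m k : SimplexCategory}
    (φ : MpS (tn P K) X m) (s : k ⟶ m) (κ : K.obj (op k)) :
    cur (exS K g φ) s κ = g.app (op k) (cur φ s κ) := by
  refine MpS.ext ?_
  funext a l t q
  have h1 : cur φ (t ≫ s) (K.map t.op κ) = (cur φ s κ).res t := cur_res φ s t κ
  have h2 : (g.app l ((cur φ s κ).res t) : MpS Q X l.unop) =
      (g.app (op k) (cur φ s κ) : MpS Q X k).res t := sset_nat g t.op (cur φ s κ)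
  show (g.app l (cur φ (t ≫ s) (K.map t.op κ)) : MpS Q X l.unop).app a l (𝟙 _) q =
    (g.app (op k) (cur φ s κ) : MpS Q X k).app a l t q
  rw [h1]
  refine (congrArg (fun t : MpS Q X l.unop => t.app a l (𝟙 _) q) h2).trans ?_
  show (g.app (op k) (cur φ s κ) : MpS Q X k).app a l (𝟙 _ ≫ t) q = _
  rw [Category.id_comp]

theorem ex0_comp (K : SSet.{0}) (g : Mp P X ⟶ Mp Q X) (h : Mp Q X ⟶ Mp R X) :
    ex0 K g ≫ ex0 K h = ex0 K (g ≫ h) := by
  refine NatTrans.ext (funext fun m => ?_)
  refine ConcreteCategory.hom_ext _ _ fun φ => ?_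
  refine MpS.ext ?_
  funext a k s z
  exact congrArg (fun t : MpS Q X k.unop => (h.app k t : MpS R X k.unop).app a k (𝟙 _) z.1)
    (cur_exS K g φ s z.2)

theorem ex0_pre (K : SSet.{0}) (f : P ⟶ Q) : ex0 K (Mp.pre f X) = Mp.pre (tnMap f (𝟙 K)) X := by
  refine NatTrans.ext (funext fun m => ?_)
  refine ConcreteCategory.hom_ext _ _ fun φ => ?_
  refine MpS.ext ?_
  funext a k s z
  exact cur_app φ a k s z.2 _

theorem ex0_id (K : SSet.{0}) : ex0 K (𝟙 (Mp P X)) = 𝟙 _ := ex0_pre K (𝟙 P)

/-- The extension of a homotopy. -/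
def exH (K L : SSet.{0}) (H : Mp P X ⊗ L ⟶ Mp Q X) :
    Mp (tn P K) X ⊗ L ⟶ Mp (tn Q K) X where
  app m := ↾ fun z =>
    ({ app := fun a k s w =>
        (H.app k (cur (z.1 : MpS (tn P K) X m.unop) s w.2, L.map s.op z.2) :
          MpS Q X k.unop).app a k (𝟙 _) w.1
       nat_left := fun {a b} f k s w =>
        (H.app k (cur (z.1 : MpS (tn P K) X m.unop) s w.2, L.map s.op z.2) :
          MpS Q X k.unop).nat_left f k (𝟙 _) w.1
       nat_right := fun a {k l} α s w => by
        obtain ⟨φ, u⟩ := z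
        have h1 : cur (φ : MpS (tn P K) X m.unop) (α.unop ≫ s) (K.map α w.2) =
            (cur (φ : MpS (tn P K) X m.unop) s w.2).res α.unop :=
          cur_res (φ : MpS (tn P K) X m.unop) s α.unop w.2
        have h1' : L.map (α.unop ≫ s).op u = L.map α (L.map s.op u) := sset_comp L s.op α u
        have h2 : (H.app l ((cur (φ : MpS (tn P K) X m.unop) s w.2).res α.unop,
            L.map α (L.map s.op u)) : MpS Q X l.unop) =
            (H.app k (cur (φ : MpS (tn P K) X m.unop) s w.2, L.map s.op u) :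
              MpS Q X k.unop).res α.unop :=
          sset_nat H α (cur (φ : MpS (tn P K) X m.unop) s w.2, L.map s.op u)
        have h3 : (H.app l (cur (φ : MpS (tn P K) X m.unop) (α.unop ≫ s) (K.map α w.2),
            L.map (α.unop ≫ s).op u) : MpS Q X l.unop) =
            (H.app k (cur (φ : MpS (tn P K) X m.unop) s w.2, L.map s.op u) :
              MpS Q X k.unop).res α.unop := by
          rw [← h2, h1, h1']
        refine (congrArg (fun t : MpS Q X l.unop =>
          t.app a l (𝟙 _) ((Q.obj a).map α w.1)) h3).trans ?_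
        refine Eq.trans ?_ ((H.app k (cur (φ : MpS (tn P K) X m.unop) s w.2, L.map s.op u) :
          MpS Q X k.unop).nat_right a α (𝟙 _) w.1)
        show (H.app k (cur (φ : MpS (tn P K) X m.unop) s w.2, L.map s.op u) :
            MpS Q X k.unop).app a l (𝟙 _ ≫ α.unop) _ =
          (H.app k (cur (φ : MpS (tn P K) X m.unop) s w.2, L.map s.op u) :
            MpS Q X k.unop).app a l (α.unop ≫ 𝟙 _) _
        rw [Category.id_comp, Category.comp_id] } : MpS (tn Q K) X m.unop)
  naturality m n α := by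
    refine ConcreteCategory.hom_ext _ _ fun z => ?_
    obtain ⟨φ, u⟩ := z
    refine MpS.ext ?_
    funext a k s w
    have h1 : cur ((φ : MpS (tn P K) X m.unop).res α.unop) s w.2 =
        cur (φ : MpS (tn P K) X m.unop) (s ≫ α.unop) w.2 :=
      cur_res' (φ : MpS (tn P K) X m.unop) α.unop s w.2
    have h2 : L.map s.op (L.map α u) = L.map (s ≫ α.unop).op u :=
      (sset_comp L α s.op u).symm
    show (H.app k (cur ((φ : MpS (tn P K) X m.unop).res α.unop) s w.2,
      L.map s.op (L.map α u)) : MpS Q X k.unop).app a k (𝟙 _) w.1 =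
      (H.app k (cur (φ : MpS (tn P K) X m.unop) (s ≫ α.unop) w.2,
        L.map (s ≫ α.unop).op u) : MpS Q X k.unop).app a k (𝟙 _) w.1
    rw [h1, h2]

theorem exH_htpy (K : SSet.{0}) {g g' : Mp P X ⟶ Mp Q X} (h : Htpy g g') :
    Htpy (ex0 K g) (ex0 K g') := by
  obtain ⟨H⟩ := h
  refine Pool.Agent.Helper45.FL2.htpy_mk (exH K Δ[1] H.h) ?_ ?_
  · refine NatTrans.ext (funext fun m => ?_)
    refine ConcreteCategory.hom_ext _ _ fun φ => ?_
    refine MpS.ext ?_
    funext a k s w
    have h0 := H.h₀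
    exact congrArg (fun t : MpS Q X k.unop => t.app a k (𝟙 _) w.1)
      (ConcreteCategory.congr_hom (NatTrans.congr_app h0 k) (cur φ s w.2))
  · refine NatTrans.ext (funext fun m => ?_)
    refine ConcreteCategory.hom_ext _ _ fun φ => ?_
    refine MpS.ext ?_
    funext a k s w
    have h1 := H.h₁
    exact congrArg (fun t : MpS Q X k.unop => t.app a k (𝟙 _) w.1)
      (ConcreteCategory.congr_hom (NatTrans.congr_app h1 k) (cur φ s w.2))

theorem loc_tensor' {P Q : SP A} (f : P ⟶ Q) (h : Loc X f) (K : SSet.{0}) :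
    Loc X (tnMap f (𝟙 K)) := by
  obtain ⟨g, h1, h2⟩ := h
  have h1' := exH_htpy K h1
  have h2' := exH_htpy K h2
  rw [← ex0_comp, ex0_id, ex0_pre] at h1' h2'
  exact ⟨ex0 K g, h1', h2'⟩

theorem loc_tensor (_hX : InjFib X) {P Q : SP A} (f : P ⟶ Q) (h : Loc X f) (K : SSet.{0}) :
    Loc X (tnMap f (𝟙 K)) := loc_tensor' f h K

end Tensor

section Pushout

variable {A : Type} [SmallCategory A]

/-- A functional natural relation gives a map. -/
theorem glueT {P T : SP A}
    (Rel : ∀ (a : Aᵒᵖ) (k : SimplexCategoryᵒᵖ), (P.obj a).obj k → (T.obj a).obj k → Prop)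
    (ex : ∀ a k z, ∃ v, Rel a k z v)
    (uniq : ∀ a k z v v', Rel a k z v → Rel a k z v' → v = v')
    (natA : ∀ {a b : Aᵒᵖ} (f : a ⟶ b) (k : SimplexCategoryᵒᵖ) (z : (P.obj a).obj k)
      (v : (T.obj a).obj k), Rel a k z v → Rel b k ((P.map f).app k z) ((T.map f).app k v))
    (natk : ∀ (a : Aᵒᵖ) {k l : SimplexCategoryᵒᵖ} (α : k ⟶ l) (z : (P.obj a).obj k)
      (v : (T.obj a).obj k), Rel a k z v → Rel a l ((P.obj a).map α z) ((T.obj a).map α v)) :
    ∃ g : P ⟶ T, ∀ a k z, Rel a k z ((g.app a).app k z) := by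
  classical
  choose c hc using ex
  refine ⟨
    { app := fun a =>
        { app := fun k => ↾ fun z => c a k z
          naturality := fun k l α => ?_ }
      naturality := fun a b f => ?_ }, fun a k z => hc a k z⟩
  · refine ConcreteCategory.hom_ext _ _ fun z => ?_
    exact uniq a l _ _ _ (hc a l _) (natk a α z _ (hc a k z))
  · refine NatTrans.ext (funext fun k => ?_)
    refine ConcreteCategory.hom_ext _ _ fun z => ?_
    exact uniq b k _ _ _ (hc b k _) (natA f k z _ (hc a k z))

/-- Elementwise criterion for pushout squares. -/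
theorem isPushout_of_elem {P Q P' Q' : SP A} (i : P ⟶ Q) (u : P ⟶ P') (v : Q ⟶ Q')
    (i' : P' ⟶ Q') (w : i ≫ v = u ≫ i')
    (hi : ∀ a k, Function.Injective ((i.app a).app k))
    (hi' : ∀ a k, Function.Injective ((i'.app a).app k))
    (hinj : ∀ a k (x y : (Q.obj a).obj k), x ∉ Set.range ((i.app a).app k) →
      y ∉ Set.range ((i.app a).app k) → (v.app a).app k x = (v.app a).app k y → x = y)
    (hdis : ∀ a k (x : (Q.obj a).obj k), x ∉ Set.range ((i.app a).app k) →
      (v.app a).app k x ∉ Set.range ((i'.app a).app k))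
    (hsurj : ∀ a k (z : (Q'.obj a).obj k), z ∈ Set.range ((v.app a).app k) ∨
      z ∈ Set.range ((i'.app a).app k)) : IsPushout i u v i' := by
  have hw : ∀ a k p, (v.app a).app k ((i.app a).app k p) =
      (i'.app a).app k ((u.app a).app k p) := fun a k p =>
    ConcreteCategory.congr_hom (NatTrans.congr_app (NatTrans.congr_app w a) k) p
  have key : ∀ s : PushoutCocone i u, ∃ g : Q' ⟶ s.pt, v ≫ g = s.inl ∧ i' ≫ g = s.inr := by
    intro s
    have hs : ∀ a k p, (s.inl.app a).app k ((i.app a).app k p) =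
        (s.inr.app a).app k ((u.app a).app k p) := fun a k p =>
      ConcreteCategory.congr_hom (NatTrans.congr_app (NatTrans.congr_app s.condition a) k) p
    have hg : ∃ g : Q' ⟶ s.pt, ∀ (a : Aᵒᵖ) (k : SimplexCategoryᵒᵖ) (z : (Q'.obj a).obj k),
        (∃ x, (v.app a).app k x = z ∧ (s.inl.app a).app k x = (g.app a).app k z) ∨
        (∃ y, (i'.app a).app k y = z ∧ (s.inr.app a).app k y = (g.app a).app k z) := by
      refine glueT (fun a k z t => (∃ x, (v.app a).app k x = z ∧ (s.inl.app a).app k x = t) ∨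
        (∃ y, (i'.app a).app k y = z ∧ (s.inr.app a).app k y = t)) ?_ ?_ ?_ ?_
      · intro a k z
        rcases hsurj a k z with ⟨x, hx⟩ | ⟨y, hy⟩
        · exact ⟨_, Or.inl ⟨x, hx, rfl⟩⟩
        · exact ⟨_, Or.inr ⟨y, hy, rfl⟩⟩
      · have aux : ∀ a k x y, (v.app a).app k x = (i'.app a).app k y →
            (s.inl.app a).app k x = (s.inr.app a).app k y := by
          intro a k x y h
          by_cases hx : x ∈ Set.range ((i.app a).app k)
          · obtain ⟨p, rfl⟩ := hx
            rw [hw] at h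
            rw [hs, hi' a k h]
          · exact absurd ⟨y, h.symm⟩ (hdis a k x hx)
        rintro a k z _ _ (⟨x, hx, rfl⟩ | ⟨y, hy, rfl⟩) (⟨x', hx', rfl⟩ | ⟨y', hy', rfl⟩)
        · by_cases h1 : x ∈ Set.range ((i.app a).app k)
          · obtain ⟨p, rfl⟩ := h1
            have h2 : (v.app a).app k x' = (i'.app a).app k ((u.app a).app k p) := by
              rw [hx', ← hx, hw]
            rw [hs]
            exact (aux a k _ _ h2).symm
          · by_cases h2 : x' ∈ Set.range ((i.app a).app k)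
            · obtain ⟨p, rfl⟩ := h2
              have h2 : (v.app a).app k x = (i'.app a).app k ((u.app a).app k p) := by
                rw [hx, ← hx', hw]
              rw [hs]
              exact aux a k _ _ h2
            · rw [hinj a k x x' h1 h2 (hx.trans hx'.symm)]
        · exact aux a k _ _ (hx.trans hy'.symm)
        · exact (aux a k _ _ (hx'.trans hy.symm)).symm
        · rw [hi' a k (hy.trans hy'.symm)]
      · rintro a b f k z _ (⟨x, rfl, rfl⟩ | ⟨y, rfl, rfl⟩)
        · exact Or.inl ⟨(Q.map f).app k x, hom_nat v f x, hom_nat s.inl f x⟩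
        · exact Or.inr ⟨(P'.map f).app k y, hom_nat i' f y, hom_nat s.inr f y⟩
      · rintro a k l α z _ (⟨x, rfl, rfl⟩ | ⟨y, rfl, rfl⟩)
        · exact Or.inl ⟨(Q.obj a).map α x, hom_natk v α x, hom_natk s.inl α x⟩
        · exact Or.inr ⟨(P'.obj a).map α y, hom_natk i' α y, hom_natk s.inr α y⟩
    obtain ⟨g, hg⟩ := hg
    refine ⟨g, ?_, ?_⟩
    · refine NatTrans.ext (funext fun a => NatTrans.ext (funext fun k => ?_))
      refine ConcreteCategory.hom_ext _ _ fun x => ?_
      show (g.app a).app k ((v.app a).app k x) = (s.inl.app a).app k x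
      rcases hg a k ((v.app a).app k x) with ⟨x', hx', h'⟩ | ⟨y, hy, h'⟩
      · rw [← h']
        by_cases h1 : x ∈ Set.range ((i.app a).app k)
        · obtain ⟨p, rfl⟩ := h1
          by_cases h2 : x' ∈ Set.range ((i.app a).app k)
          · obtain ⟨p', rfl⟩ := h2
            rw [hw, hw] at hx'
            rw [hs, hs, hi' a k hx']
          · refine absurd ⟨(u.app a).app k p, ?_⟩ (hdis a k x' h2)
            rw [← hw, ← hx']
        · by_cases h2 : x' ∈ Set.range ((i.app a).app k)
          · obtain ⟨p, rfl⟩ := h2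
            refine absurd ⟨(u.app a).app k p, ?_⟩ (hdis a k x h1)
            rw [← hw, hx']
          · rw [hinj a k x' x h2 h1 hx']
      · rw [← h']
        by_cases h1 : x ∈ Set.range ((i.app a).app k)
        · obtain ⟨p, rfl⟩ := h1
          rw [hw] at hy
          rw [hs, hi' a k hy]
        · exact absurd ⟨y, hy⟩ (hdis a k x h1)
    · refine NatTrans.ext (funext fun a => NatTrans.ext (funext fun k => ?_))
      refine ConcreteCategory.hom_ext _ _ fun y => ?_
      show (g.app a).app k ((i'.app a).app k y) = (s.inr.app a).app k y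
      rcases hg a k ((i'.app a).app k y) with ⟨x, hx, h'⟩ | ⟨y', hy', h'⟩
      · rw [← h']
        by_cases h1 : x ∈ Set.range ((i.app a).app k)
        · obtain ⟨p, rfl⟩ := h1
          rw [hw] at hx
          rw [hs, hi' a k hx]
        · exact absurd ⟨y, hx.symm⟩ (hdis a k x h1)
      · rw [← h', hi' a k hy']
  choose d hd1 hd2 using key
  refine ⟨⟨w⟩, ⟨PushoutCocone.IsColimit.mk _ d hd1 hd2 ?_⟩⟩
  intro s m h1 h2
  refine NatTrans.ext (funext fun a => NatTrans.ext (funext fun k => ?_))
  refine ConcreteCategory.hom_ext _ _ fun z => ?_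
  rcases hsurj a k z with ⟨x, rfl⟩ | ⟨y, rfl⟩
  · have e1 := ConcreteCategory.congr_hom (NatTrans.congr_app (NatTrans.congr_app h1 a) k) x
    have e2 := ConcreteCategory.congr_hom
      (NatTrans.congr_app (NatTrans.congr_app (hd1 s) a) k) x
    exact e1.trans e2.symm
  · have e1 := ConcreteCategory.congr_hom (NatTrans.congr_app (NatTrans.congr_app h2 a) k) y
    have e2 := ConcreteCategory.congr_hom
      (NatTrans.congr_app (NatTrans.congr_app (hd2 s) a) k) y
    exact e1.trans e2.symm

end Pushout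

end Pool.Agent.Helper55.FL2
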