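import Pool.Agent.Helper45.FL2.LocAll
import Pool.Agent.Helper81.FL2.Face
import Pool.Agent.Helper88.FL.Htpy

/-! FL2-G4, part 1: locality of the maps of unions of faces. -/

open CategoryTheory MonoidalCategory Opposite

set_option autoImplicit false

namespace Pool.Agent.Helper55.FL2

open FL Pool.Agent.Helper45.LOC
open Pool.Agent.Helper81.FL2 (cface_inf)
open Pool.Agent.Helper88.FL (htpy_pre htpy_post)

universe v

/-! ### Retracts -/

theorem hoEq_retract {X Y X' Y' : SSet.{v}} {f : X ⟶ Y} {f' : X' ⟶ Y'} (i : X' ⟶ X)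
    (r : X ⟶ X') (hir : i ≫ r = 𝟙 X') (j : Y' ⟶ Y) (q : Y ⟶ Y') (hjq : j ≫ q = 𝟙 Y')
    (h1 : i ≫ f = f' ≫ j) (h2 : r ≫ f' = f ≫ q) (hf : HoEq f) : HoEq f' := by
  obtain ⟨g, a, b⟩ := hf
  refine ⟨j ≫ g ≫ r, ?_, ?_⟩
  · have e1 : f' ≫ j ≫ g ≫ r = i ≫ (f ≫ g) ≫ r := by
      rw [← Category.assoc, ← h1]
      simp only [Category.assoc]
    have e2 : i ≫ 𝟙 X ≫ r = 𝟙 X' := by rw [Category.id_comp, hir]
    have := htpy_pre i (htpy_post (show Htpy (f ≫ g) (𝟙 X) from a) r)
    rw [← e1, e2] at this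
    exact this
  · have e1 : (j ≫ g ≫ r) ≫ f' = j ≫ (g ≫ f) ≫ q := by
      simp only [Category.assoc, h2]
    have e2 : j ≫ 𝟙 Y ≫ q = 𝟙 Y' := by rw [Category.id_comp, hjq]
    have := htpy_pre j (htpy_post (show Htpy (g ≫ f) (𝟙 Y) from b) q)
    rw [← e1, e2] at this
    exact this

section

variable {A : Type} [SmallCategory A] {X : SP A}

theorem loc_retract {P Q P' Q' : SP A} {f : P ⟶ Q} {f' : P' ⟶ Q'} (i : P' ⟶ P) (r : P ⟶ P')
    (hir : i ≫ r = 𝟙 P') (j : Q' ⟶ Q) (q : Q ⟶ Q') (hjq : j ≫ q = 𝟙 Q')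
    (h1 : i ≫ f = f' ≫ j) (h2 : r ≫ f' = f ≫ q) (hf : Loc X f) : Loc X f' := by
  have c : ∀ {P Q R : SP A} (a : P ⟶ Q) (b : Q ⟶ R),
      Mp.pre (a ≫ b) X = Mp.pre b X ≫ Mp.pre a X := fun _ _ => rfl
  refine hoEq_retract (f := Mp.pre f X) (f' := Mp.pre f' X) (Mp.pre q X) (Mp.pre j X) ?_
    (Mp.pre r X) (Mp.pre i X) ?_ ?_ ?_ hf
  · rw [← c, hjq]; rfl
  · rw [← c, hir]; rfl
  · rw [← c, ← c, h2]
  · rw [← c, ← c, h1]

/-- Corestriction. -/
def cor {P Q : SP A} (f : P ⟶ Q) (T : Sb Q)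
    (h : ∀ (a : Aᵒᵖ) (k : SimplexCategoryᵒᵖ) (x : (P.obj a).obj k),
      (f.app a).app k x ∈ T.mem a k) : P ⟶ T.toSP where
  app a :=
    { app := fun k => ↾ fun x => ⟨(f.app a).app k x, h a k x⟩
      naturality := fun k l α => by
        refine ConcreteCategory.hom_ext _ _ fun x => ?_
        exact Subtype.ext (hom_natk f α x) }
  naturality a b g := by
    refine NatTrans.ext (funext fun k => ?_)
    refine ConcreteCategory.hom_ext _ _ fun x => ?_
    exact Subtype.ext (hom_nat f g x)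

theorem loc_restr_congr {P Q : SP A} (f : P ⟶ Q) {S S₁ : Sb P} {T T₁ : Sb Q} (hS : S = S₁)
    (hT : T = T₁)
    (h : ∀ (a : Aᵒᵖ) (k : SimplexCategoryᵒᵖ) (x : (P.obj a).obj k),
      x ∈ S.mem a k → (f.app a).app k x ∈ T.mem a k)
    (h' : ∀ (a : Aᵒᵖ) (k : SimplexCategoryᵒᵖ) (x : (P.obj a).obj k),
      x ∈ S₁.mem a k → (f.app a).app k x ∈ T₁.mem a k)
    (hl : Loc X (Sb.restr f S T h)) : Loc X (Sb.restr f S₁ T₁ h') := by
  subst hS hT
  exact hl

/-! ### Retractions onto faces -/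

/-- `e` is a retraction of `[N]` onto `U`. -/
def Rt {N : SimplexCategory} (U : Finset (Fin (N.len + 1))) (e : N ⟶ N) : Prop :=
  (∀ i, e.toOrderHom i ∈ U) ∧ ∀ i ∈ U, e.toOrderHom i = i

theorem exists_rt {N : SimplexCategory} {U : Finset (Fin (N.len + 1))} (h : U.Nonempty) :
    ∃ e : N ⟶ N, Rt U e := by
  have hne : ∀ i, (U.filter (· ≤ max i (U.min' h))).Nonempty := fun i =>
    ⟨U.min' h, Finset.mem_filter.2 ⟨U.min'_mem h, le_max_right _ _⟩⟩
  refine ⟨SimplexCategory.Hom.mk ⟨fun i => (U.filter (· ≤ max i (U.min' h))).max' (hne i),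
    fun i j hij => ?_⟩, ?_, ?_⟩
  · refine Finset.max'_subset _ fun x hx => ?_
    rw [Finset.mem_filter] at hx ⊢
    exact ⟨hx.1, hx.2.trans (max_le_max_right _ hij)⟩
  · intro i
    exact (Finset.mem_filter.1 (Finset.max'_mem _ (hne i))).1
  · intro i hi
    have h1 : max i (U.min' h) = i := max_eq_left (U.min'_le i hi)
    refine le_antisymm ?_ ?_
    · have := (Finset.mem_filter.1 (Finset.max'_mem _ (hne i))).2
      exact this.trans h1.le
    · exact Finset.le_max' _ _ (Finset.mem_filter.2 ⟨hi, h1.ge⟩)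

theorem comp_rt {m N : SimplexCategory} {U : Finset (Fin (N.len + 1))} {e : N ⟶ N}
    (he : Rt U e) (α : m ⟶ N) (h : ∀ i, α.toOrderHom i ∈ U) : α ≫ e = α := by
  ext i : 3
  exact he.2 _ (h i)

theorem comp_rt_iff {m N : SimplexCategory} {U : Finset (Fin (N.len + 1))} {e : N ⟶ N}
    (he : Rt U e) (α : m ⟶ N) : α ≫ e = α ↔ ∀ i, α.toOrderHom i ∈ U := by
  refine ⟨fun h i => ?_, comp_rt he α⟩
  rw [← h]
  exact he.1 _

theorem supp_iff (F : SimplexCategory ⥤ SP A) {N : SimplexCategory}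
    {U : Finset (Fin (N.len + 1))} {e : N ⟶ N} (he : Rt U e) {a : Aᵒᵖ} {k : SimplexCategoryᵒᵖ}
    (x : ((F.obj N).obj a).obj k) : Supp F U x ↔ ((F.map e).app a).app k x = x := by
  constructor
  · rintro ⟨m, α, y, h, rfl⟩
    rw [← cos_comp, comp_rt he α h]
  · intro h
    exact ⟨N, e, x, he.1, h⟩

theorem mem_cface_iff (F : SimplexCategory ⥤ SP A) {N : SimplexCategory}
    {U : Finset (Fin (N.len + 1))} {e : N ⟶ N} (he : Rt U e) {a : Aᵒᵖ} {k : SimplexCategoryᵒᵖ}
    (z : ((tn (F.obj N) (SSet.stdSimplex.obj N)).obj a).obj k) :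
    z ∈ (cface F U).mem a k ↔ ((F.map e).app a).app k z.1 = z.1 ∧
      SSet.stdSimplex.objEquiv z.2 ≫ e = SSet.stdSimplex.objEquiv z.2 := by
  show (Supp F U z.1 ∧ _) ↔ _
  rw [supp_iff F he, comp_rt_iff he]

variable {F G : SimplexCategory ⥤ SP A}

/-- The map `F_N ⊗ Δ[N] ⟶ G_N ⊗ Δ[N]`. -/
abbrev tu (u : F ⟶ G) (N : SimplexCategory) :
    tn (F.obj N) (SSet.stdSimplex.obj N) ⟶ tn (G.obj N) (SSet.stdSimplex.obj N) :=
  tnMap (u.app N) (𝟙 (SSet.stdSimplex.obj N))

theorem tu_supp (u : F ⟶ G) {N : SimplexCategory} {U : Finset (Fin (N.len + 1))} {a : Aᵒᵖ}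
    {k : SimplexCategoryᵒᵖ} (x : ((F.obj N).obj a).obj k) (h : Supp F U x) :
    Supp G U (((u.app N).app a).app k x) := by
  obtain ⟨m, α, y, h, rfl⟩ := h
  refine ⟨m, α, ((u.app m).app a).app k y, h, ?_⟩
  exact (ConcreteCategory.congr_hom (NatTrans.congr_app (NatTrans.congr_app
    (u.naturality α) a) k) y).symm

theorem tu_cface (u : F ⟶ G) {N : SimplexCategory} (U : Finset (Fin (N.len + 1))) (a : Aᵒᵖ)
    (k : SimplexCategoryᵒᵖ) (z : ((tn (F.obj N) (SSet.stdSimplex.obj N)).obj a).obj k)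
    (h : z ∈ (cface F U).mem a k) : ((tu u N).app a).app k z ∈ (cface G U).mem a k :=
  ⟨tu_supp u z.1 h.1, h.2⟩

theorem u_nat (u : F ⟶ G) {m n : SimplexCategory} (α : m ⟶ n) {a : Aᵒᵖ}
    {k : SimplexCategoryᵒᵖ} (x : ((F.obj m).obj a).obj k) :
    ((u.app n).app a).app k (((F.map α).app a).app k x) =
      ((G.map α).app a).app k (((u.app m).app a).app k x) :=
  ConcreteCategory.congr_hom (NatTrans.congr_app (NatTrans.congr_app (u.naturality α) a) k) x

/-- The retraction of `F_N ⊗ Δ[N]` onto a face. -/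
def rface (F : SimplexCategory ⥤ SP A) {N : SimplexCategory} {U : Finset (Fin (N.len + 1))}
    {e : N ⟶ N} (he : Rt U e) :
    tn (F.obj N) (SSet.stdSimplex.obj N) ⟶ (cface F U).toSP :=
  cor (tnMap (F.map e) (SSet.stdSimplex.map e)) (cface F U) fun _ _ z =>
    ⟨⟨N, e, z.1, he.1, rfl⟩, fun i => he.1 ((SSet.stdSimplex.objEquiv z.2).toOrderHom i)⟩

/-- One face. -/
theorem loc_face (hX : InjFib X) (u : F ⟶ G) (N : SimplexCategory) (h : Loc X (u.app N))
    (U : Finset (Fin (N.len + 1))) :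
    Loc X (Sb.restr (tu u N) (cface F U) (cface G U) (tu_cface u U)) := by
  rcases U.eq_empty_or_nonempty with rfl | hU
  · -- both sides are empty
    have hempty : ∀ (F : SimplexCategory ⥤ SP A) (a : Aᵒᵖ) (k : SimplexCategoryᵒᵖ),
        IsEmpty (((cface F (∅ : Finset (Fin (N.len + 1)))).toSP.obj a).obj k) := by
      intro F a k
      refine ⟨fun z => ?_⟩
      exact absurd (z.2.2 0) (Finset.notMem_empty _)
    have : IsIso (Sb.restr (tu u N) (cface F (∅ : Finset (Fin (N.len + 1)))) (cface G ∅)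
        (tu_cface u ∅)) := by
      have : ∀ a, IsIso ((Sb.restr (tu u N) (cface F (∅ : Finset (Fin (N.len + 1))))
          (cface G ∅) (tu_cface u ∅)).app a) := by
        intro a
        have : ∀ k, IsIso (((Sb.restr (tu u N) (cface F (∅ : Finset (Fin (N.len + 1))))
            (cface G ∅) (tu_cface u ∅)).app a).app k) := by
          intro k
          rw [isIso_iff_bijective]
          exact ⟨fun x => ((hempty F a k).false x).elim, fun x => ((hempty G a k).false x).elim⟩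
        exact NatIso.isIso_of_isIso_app _
      exact NatIso.isIso_of_isIso_app _
    exact loc_of_isIso _
  · obtain ⟨e, he⟩ := exists_rt hU
    refine loc_retract (f := tu u N) (Sb.ι _) (rface F he) ?_ (Sb.ι _) (rface G he) ?_ rfl ?_
      (loc_tensor hX _ h _)
    · refine NatTrans.ext (funext fun a => NatTrans.ext (funext fun k => ?_))
      refine ConcreteCategory.hom_ext _ _ fun z => ?_
      have h1 := (mem_cface_iff F he z.1).1 z.2
      refine Subtype.ext (Prod.ext h1.1 ?_)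
      exact SSet.stdSimplex.objEquiv.injective h1.2
    · refine NatTrans.ext (funext fun a => NatTrans.ext (funext fun k => ?_))
      refine ConcreteCategory.hom_ext _ _ fun z => ?_
      have h1 := (mem_cface_iff G he z.1).1 z.2
      refine Subtype.ext (Prod.ext h1.1 ?_)
      exact SSet.stdSimplex.objEquiv.injective h1.2
    · refine NatTrans.ext (funext fun a => NatTrans.ext (funext fun k => ?_))
      refine ConcreteCategory.hom_ext _ _ fun z => ?_
      exact Subtype.ext (Prod.ext (u_nat u e z.1) rfl)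

/-! ### Families of faces -/

/-- The union of a list of faces. -/
def fam (F : SimplexCategory ⥤ SP A) {N : SimplexCategory}
    (l : List (Finset (Fin (N.len + 1)))) : Sb (tn (F.obj N) (SSet.stdSimplex.obj N)) :=
  l.foldr (fun U S => cface F U ⊔ S) ⊥

theorem fam_nil (F : SimplexCategory ⥤ SP A) {N : SimplexCategory} :
    fam F ([] : List (Finset (Fin (N.len + 1)))) = ⊥ := rfl

theorem fam_cons (F : SimplexCategory ⥤ SP A) {N : SimplexCategory}
    (U : Finset (Fin (N.len + 1))) (l : List (Finset (Fin (N.len + 1)))) :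
    fam F (U :: l) = cface F U ⊔ fam F l := rfl

theorem mem_fam (F : SimplexCategory ⥤ SP A) {N : SimplexCategory}
    (l : List (Finset (Fin (N.len + 1)))) {a : Aᵒᵖ} {k : SimplexCategoryᵒᵖ}
    (z : ((tn (F.obj N) (SSet.stdSimplex.obj N)).obj a).obj k) :
    z ∈ (fam F l).mem a k ↔ ∃ U ∈ l, z ∈ (cface F U).mem a k := by
  induction l with
  | nil =>
    constructor
    · intro h
      exact (Sb.mem_bot _ _ _ h).elim
    · rintro ⟨U, h, _⟩
      exact absurd h List.not_mem_nil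
  | cons V l ih =>
    rw [fam_cons, Sb.mem_sup, ih]
    constructor
    · rintro (h | ⟨U, hU, h⟩)
      · exact ⟨V, List.mem_cons_self, h⟩
      · exact ⟨U, List.mem_cons_of_mem _ hU, h⟩
    · rintro ⟨U, hU, h⟩
      rcases List.mem_cons.1 hU with rfl | hU
      · exact Or.inl h
      · exact Or.inr ⟨U, hU, h⟩

theorem fam_inf (F : SimplexCategory ⥤ SP A) {N : SimplexCategory}
    (V : Finset (Fin (N.len + 1))) (l : List (Finset (Fin (N.len + 1)))) :
    fam F (l.map (V ∩ ·)) = cface F V ⊓ fam F l := by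
  induction l with
  | nil => exact (inf_bot_eq _).symm
  | cons U l ih =>
    rw [List.map_cons, fam_cons, fam_cons, ih, cface_inf, inf_sup_left]

theorem tu_fam (u : F ⟶ G) {N : SimplexCategory} (l : List (Finset (Fin (N.len + 1)))) (a : Aᵒᵖ)
    (k : SimplexCategoryᵒᵖ) (z : ((tn (F.obj N) (SSet.stdSimplex.obj N)).obj a).obj k)
    (h : z ∈ (fam F l).mem a k) : ((tu u N).app a).app k z ∈ (fam G l).mem a k := by
  rw [mem_fam] at h ⊢
  obtain ⟨U, hU, h⟩ := h
  exact ⟨U, hU, tu_cface u U a k z h⟩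

theorem loc_fam (hX : InjFib X) (u : F ⟶ G) (N : SimplexCategory) (h : Loc X (u.app N)) :
    ∀ (n : ℕ) (l : List (Finset (Fin (N.len + 1)))), l.length = n →
      Loc X (Sb.restr (tu u N) (fam F l) (fam G l) (tu_fam u l)) := by
  intro n
  induction n with
  | zero =>
    intro l hl
    obtain rfl := List.length_eq_zero_iff.1 hl
    have hbot : ∀ F : SimplexCategory ⥤ SP A,
        cface F (∅ : Finset (Fin (N.len + 1))) = fam F [] := by
      intro F
      refine Sb.ext ?_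
      funext a k
      ext z
      constructor
      · rintro ⟨_, h⟩
        exact absurd (h 0) (Finset.notMem_empty _)
      · intro h
        exact (Sb.mem_bot _ _ _ h).elim
    exact loc_restr_congr (tu u N) (hbot F) (hbot G) _ _ (loc_face hX u N h ∅)
  | succ n ih =>
    intro l hl
    obtain ⟨V, l, rfl⟩ := List.exists_cons_of_length_eq_add_one hl
    have hl' : l.length = n := by simpa using hl
    refine loc_restr_sup hX (tu u N) (cface F V) (fam F l) (cface G V) (fam G l)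
      (tu_cface u V) (tu_fam u l) (loc_face hX u N h V) (ih l hl') ?_
    refine loc_restr_congr (tu u N) (fam_inf F V l) (fam_inf G V l) _ _
      (ih (l.map (V ∩ ·)) (by simpa using hl'))

end

end Pool.Agent.Helper55.FL2
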