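import Pool.Agent.Helper55.FL2.GPa

/-! FL2-G4, part 2: the generation principle for monomorphisms. -/

open CategoryTheory MonoidalCategory Opposite

set_option autoImplicit false

namespace Pool.Agent.Helper55.FL2

open FL Pool.Agent.Helper45.LOC
open Pool.Agent.Helper81.FL2 (cface_inf)

section

variable {A : Type} [SmallCategory A] {X : SP A}

/-- A functional natural relation gives a map. -/
theorem glue {P : SP A} (D : Sb P)
    (Rel : ∀ (a : Aᵒᵖ) (k : SimplexCategoryᵒᵖ), (P.obj a).obj k → (X.obj a).obj k → Prop)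
    (ex : ∀ a k z, z ∈ D.mem a k → ∃ v, Rel a k z v)
    (uniq : ∀ a k z v v', Rel a k z v → Rel a k z v' → v = v')
    (natA : ∀ {a b : Aᵒᵖ} (f : a ⟶ b) (k : SimplexCategoryᵒᵖ) (z : (P.obj a).obj k)
      (v : (X.obj a).obj k), Rel a k z v → Rel b k ((P.map f).app k z) ((X.map f).app k v))
    (natk : ∀ (a : Aᵒᵖ) {k l : SimplexCategoryᵒᵖ} (α : k ⟶ l) (z : (P.obj a).obj k)
      (v : (X.obj a).obj k), Rel a k z v → Rel a l ((P.obj a).map α z) ((X.obj a).map α v)) :
    ∃ g : D.toSP ⟶ X, ∀ a k (z : (D.toSP.obj a).obj k),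
      Rel a k z.1 ((g.app a).app k z) := by
  classical
  choose c hc using ex
  refine ⟨
    { app := fun a =>
        { app := fun k => ↾ fun z => c a k z.1 z.2
          naturality := fun k l α => ?_ }
      naturality := fun a b f => ?_ }, fun a k z => hc a k z.1 z.2⟩
  · refine ConcreteCategory.hom_ext _ _ fun z => ?_
    exact uniq a l _ _ _ (hc a l _ (D.mapk a α z.1 z.2)) (natk a α z.1 _ (hc a k z.1 z.2))
  · refine NatTrans.ext (funext fun k => ?_)
    refine ConcreteCategory.hom_ext _ _ fun z => ?_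
    exact uniq b k _ _ _ (hc b k _ (D.mapA f k z.1 z.2)) (natA f k z.1 _ (hc a k z.1 z.2))

theorem isIso_of_bij {P Q : SP A} (f : P ⟶ Q)
    (h : ∀ a k, Function.Bijective ((f.app a).app k)) : IsIso f := by
  have : ∀ a, IsIso (f.app a) := by
    intro a
    have : ∀ k, IsIso ((f.app a).app k) := fun k => (isIso_iff_bijective _).2 (h a k)
    exact NatIso.isIso_of_isIso_app _
  exact NatIso.isIso_of_isIso_app _

theorem inj_of_mono {P Q : SP A} (f : P ⟶ Q) (h : ∀ a, Mono (f.app a)) (a : Aᵒᵖ)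
    (k : SimplexCategoryᵒᵖ) : Function.Injective ((f.app a).app k) := by
  have := h a
  rw [← mono_iff_injective]
  infer_instance

theorem mono_of_inj {P Q : SP A} (f : P ⟶ Q)
    (h : ∀ a k, Function.Injective ((f.app a).app k)) (a : Aᵒᵖ) : Mono (f.app a) := by
  have : ∀ k, Mono ((f.app a).app k) := fun k => (mono_iff_injective _).2 (h a k)
  exact NatTrans.mono_of_mono_app _

variable {F G : SimplexCategory ⥤ SP A}

theorem tu_inj (u : F ⟶ G) (hu : ∀ m a, Mono ((u.app m).app a)) (N : SimplexCategory)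
    (a : Aᵒᵖ) (k : SimplexCategoryᵒᵖ) : Function.Injective (((tu u N).app a).app k) := by
  rintro ⟨x, s⟩ ⟨y, t⟩ h
  have h' : ((((u.app N).app a).app k x, s) : ((G.obj N).obj a).obj k ×
      (SSet.stdSimplex.obj N).obj k) = (((u.app N).app a).app k y, t) := h
  refine Prod.ext ?_ (Prod.ext_iff.1 h').2
  exact inj_of_mono (u.app N) (hu N) a k (Prod.ext_iff.1 h').1

/-- Faces of `F` are the traces of the faces of `G`. -/
theorem trace_face (u : F ⟶ G) (hu : ∀ m a, Mono ((u.app m).app a)) {N : SimplexCategory}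
    (U : Finset (Fin (N.len + 1))) (a : Aᵒᵖ) (k : SimplexCategoryᵒᵖ)
    (z : ((tn (F.obj N) (SSet.stdSimplex.obj N)).obj a).obj k)
    (h : ((tu u N).app a).app k z ∈ (cface G U).mem a k) : z ∈ (cface F U).mem a k := by
  have hU : U.Nonempty := ⟨_, h.2 0⟩
  obtain ⟨e, he⟩ := exists_rt hU
  rw [mem_cface_iff G he] at h
  rw [mem_cface_iff F he]
  refine ⟨inj_of_mono (u.app N) (hu N) a k ?_, h.2⟩
  rw [u_nat]
  exact h.1

/-- The family of all faces of codimension one. -/
def bdl (N : SimplexCategory) : List (Finset (Fin (N.len + 1))) :=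
  (List.finRange (N.len + 1)).map (fun j => Finset.univ.erase j)

theorem mem_bd (F : SimplexCategory ⥤ SP A) {N : SimplexCategory} {a : Aᵒᵖ}
    {k : SimplexCategoryᵒᵖ} (z : ((tn (F.obj N) (SSet.stdSimplex.obj N)).obj a).obj k) :
    z ∈ (fam F (bdl N)).mem a k ↔
      ∃ U : Finset (Fin (N.len + 1)), U ≠ Finset.univ ∧ z ∈ (cface F U).mem a k := by
  rw [mem_fam]
  constructor
  · rintro ⟨U, hU, h⟩
    obtain ⟨j, _, rfl⟩ := List.mem_map.1 hU
    refine ⟨_, fun h' => ?_, h⟩
    have := Finset.mem_univ j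
    rw [← h'] at this
    exact Finset.notMem_erase j _ this
  · rintro ⟨U, hU, ⟨m, α, y, h1, h2⟩, h3⟩
    obtain ⟨j, hj⟩ : ∃ j, j ∉ U := by
      by_contra hcon
      push Not at hcon
      exact hU (Finset.eq_univ_iff_forall.2 hcon)
    refine ⟨Finset.univ.erase j, List.mem_map.2 ⟨j, List.mem_finRange j, rfl⟩, ⟨m, α, y, ?_, h2⟩, ?_⟩
    · intro i
      exact Finset.mem_erase.2 ⟨fun h => hj (h ▸ h1 i), Finset.mem_univ _⟩
    · intro i
      exact Finset.mem_erase.2 ⟨fun h => hj (h ▸ h3 i), Finset.mem_univ _⟩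

/-- The domain of the extension problem. -/
def dom (u : F ⟶ G) (N : SimplexCategory) : Sb (tn (G.obj N) (SSet.stdSimplex.obj N)) :=
  fam G (bdl N) ⊔ Sb.range (tu u N)

theorem loc_dom (hX : InjFib X) (u : F ⟶ G) (hu : ∀ m a, Mono ((u.app m).app a))
    (N : SimplexCategory) (h : Loc X (u.app N)) : Loc X (dom u N).ι := by
  have hinj := tu_inj u hu N
  have hR : LocT X (Sb.range (tu u N)) ⊤ :=
    (loc_iff_range (tu u N) (mono_of_inj _ hinj)).1 (loc_tensor hX _ h _)
  have h1 : LocT X (Sb.range (tu u N) ⊓ fam G (bdl N)) (fam G (bdl N)) := by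
    refine ⟨inf_le_right, ?_⟩
    -- the map of boundaries
    have h2 := loc_fam hX u N h _ (bdl N) rfl
    let r : (fam F (bdl N)).toSP ⟶ (Sb.range (tu u N) ⊓ fam G (bdl N)).toSP :=
      Sb.restr (tu u N) _ _ fun a k z hz => ⟨⟨z, rfl⟩, tu_fam u _ a k z hz⟩
    have hr : IsIso r := by
      refine isIso_of_bij r fun a k => ⟨?_, ?_⟩
      · intro z w hzw
        exact Subtype.ext (hinj a k (congrArg Subtype.val hzw))
      · rintro ⟨_, ⟨z, rfl⟩, hz⟩
        refine ⟨⟨z, ?_⟩, rfl⟩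
        have hz' : ((tu u N).app a).app k z ∈ (fam G (bdl N)).mem a k := hz
        rw [mem_bd] at hz' ⊢
        obtain ⟨U, hU, hz'⟩ := hz'
        exact ⟨U, hU, trace_face u hu U a k z hz'⟩
    exact loc_of_comp_left hX (loc_of_isIso r) h2
  have h3 : LocT X (Sb.range (tu u N)) (dom u N) := by
    have := locT_push hX h1
    rwa [sup_comm] at this
  have h4 : LocT X (dom u N) ⊤ := locT_cancel hX h3 hR le_top
  obtain ⟨hle, h4⟩ := h4
  have hi : IsIso (Sb.ι (⊤ : Sb (tn (G.obj N) (SSet.stdSimplex.obj N)))) :=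
    isIso_of_bij _ fun a k => ⟨fun x y h => Subtype.ext h, fun x => ⟨⟨x, trivial⟩, rfl⟩⟩
  exact loc_comp hX h4 (loc_of_isIso (Sb.ι (⊤ : Sb (tn (G.obj N) (SSet.stdSimplex.obj N)))))

/-- Nonsurjective endomorphisms. -/
def NS {N : SimplexCategory} (e : N ⟶ N) : Prop := ∃ j, ∀ i, e.toOrderHom i ≠ j

theorem ns_of_rt {N : SimplexCategory} {U : Finset (Fin (N.len + 1))} (hU : U ≠ Finset.univ)
    {e : N ⟶ N} (he : ∀ i, e.toOrderHom i ∈ U) : NS e := by
  obtain ⟨j, hj⟩ : ∃ j, j ∉ U := by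
    by_contra hcon
    push Not at hcon
    exact hU (Finset.eq_univ_iff_forall.2 hcon)
  exact ⟨j, fun i h => hj (h ▸ he i)⟩

theorem ns_sub {N : SimplexCategory} {U : Finset (Fin (N.len + 1))} {e w : N ⟶ N} (hn : NS e)
    (he : Rt U e) (hw : ∀ i, w.toOrderHom i ∈ U) : NS w := by
  obtain ⟨j, hj⟩ := hn
  refine ⟨j, fun i h => hj j ?_⟩
  exact he.2 j (h ▸ hw i)

/-- The extension problem. -/
theorem exists_ext (hX : InjFib X) (u : F ⟶ G) (hu : ∀ m a, Mono ((u.app m).app a))
    (N : SimplexCategory) (h : Loc X (u.app N)) (ψ : MpS (F.obj N) X N)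
    (b : ∀ e : N ⟶ N, NS e → MpS (G.obj N) X N)
    (hb : ∀ e e' : N ⟶ N, ∀ U : Finset (Fin (N.len + 1)), Rt U e' →
      (∀ i, e.toOrderHom i ∈ U) → ∀ (h1 : NS e) (h2 : NS e'),
        b e h1 = (MpS.ofHom N (G.map e)).comp ((b e' h2).res e))
    (hc : ∀ (e : N ⟶ N) (h1 : NS e),
      (MpS.ofHom N (u.app N)).comp (b e h1) = (MpS.ofHom N (F.map e)).comp (ψ.res e)) :
    ∃ φ : MpS (G.obj N) X N, (MpS.ofHom N (u.app N)).comp φ = ψ ∧
      ∀ e : N ⟶ N, ∀ U : Finset (Fin (N.len + 1)), U ≠ Finset.univ → Rt U e → ∀ h1 : NS e,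
        ∀ (a : Aᵒᵖ) (k : SimplexCategoryᵒᵖ) (s : k.unop ⟶ N) (x : ((G.obj N).obj a).obj k),
          ((G.map e).app a).app k x = x → s ≫ e = s →
            φ.app a k s x = (b e h1).app a k s x := by
  let Rel : ∀ (a : Aᵒᵖ) (k : SimplexCategoryᵒᵖ),
      ((tn (G.obj N) (SSet.stdSimplex.obj N)).obj a).obj k → (X.obj a).obj k → Prop :=
    fun a k z v =>
      (∃ x : ((F.obj N).obj a).obj k, ((u.app N).app a).app k x = z.1 ∧
        v = ψ.app a k (SSet.stdSimplex.objEquiv z.2) x) ∨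
      (∃ (e : N ⟶ N) (U : Finset (Fin (N.len + 1))) (h1 : NS e), Rt U e ∧
        z ∈ (cface G U).mem a k ∧ v = (b e h1).app a k (SSet.stdSimplex.objEquiv z.2) z.1)
  have key : ∀ (a : Aᵒᵖ) (k : SimplexCategoryᵒᵖ)
      (z : ((tn (G.obj N) (SSet.stdSimplex.obj N)).obj a).obj k)
      (x : ((F.obj N).obj a).obj k) (e : N ⟶ N) (U : Finset (Fin (N.len + 1))) (hn : NS e),
      Rt U e → ((u.app N).app a).app k x = z.1 → z ∈ (cface G U).mem a k →
      ψ.app a k (SSet.stdSimplex.objEquiv z.2) x =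
        (b e hn).app a k (SSet.stdSimplex.objEquiv z.2) z.1 := by
    intro a k z x e U hn he hx hz
    rw [mem_cface_iff G he] at hz
    have h1 : ((F.map e).app a).app k x = x := by
      apply inj_of_mono (u.app N) (hu N) a k
      rw [u_nat, hx]
      exact hz.1
    have h2 := congrArg (fun t : MpS (F.obj N) X N => t.app a k (SSet.stdSimplex.objEquiv z.2) x)
      (hc e hn)
    have h3 : (b e hn).app a k (SSet.stdSimplex.objEquiv z.2) (((u.app N).app a).app k x) =
      ψ.app a k (SSet.stdSimplex.objEquiv z.2 ≫ e) (((F.map e).app a).app k x) := h2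
    rw [h1, hz.2, hx] at h3
    exact h3.symm
  have key2 : ∀ (a : Aᵒᵖ) (k : SimplexCategoryᵒᵖ)
      (z : ((tn (G.obj N) (SSet.stdSimplex.obj N)).obj a).obj k)
      (e e' : N ⟶ N) (U V : Finset (Fin (N.len + 1))) (hn : NS e) (hn' : NS e'),
      Rt U e → Rt V e' → V ⊆ U → z ∈ (cface G V).mem a k →
      (b e' hn').app a k (SSet.stdSimplex.objEquiv z.2) z.1 =
        (b e hn).app a k (SSet.stdSimplex.objEquiv z.2) z.1 := by
    intro a k z e e' U V hn hn' he he' hVU hz
    rw [mem_cface_iff G he'] at hz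
    have h2 := hb e' e U he (fun i => hVU (he'.1 i)) hn' hn
    have h3 := congrArg (fun t : MpS (G.obj N) X N => t.app a k (SSet.stdSimplex.objEquiv z.2) z.1) h2
    have h4 : (b e' hn').app a k (SSet.stdSimplex.objEquiv z.2) z.1 =
      (b e hn).app a k (SSet.stdSimplex.objEquiv z.2 ≫ e') (((G.map e').app a).app k z.1) := h3
    rw [hz.1, hz.2] at h4
    exact h4
  have hglue : ∃ g : (dom u N).toSP ⟶ X, ∀ a k (z : ((dom u N).toSP.obj a).obj k),
      Rel a k z.1 ((g.app a).app k z) := by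
    refine glue (X := X) (dom u N) Rel ?_ ?_ ?_ ?_
    · -- existence
      intro a k z hz
      rcases hz with hz | ⟨x, hx⟩
      · have hz' : z ∈ (fam G (bdl N)).mem a k := hz
        rw [mem_bd] at hz'
        obtain ⟨U, hU, hz'⟩ := hz'
        obtain ⟨e, he⟩ := exists_rt (U := U) ⟨_, hz'.2 0⟩
        exact ⟨_, Or.inr ⟨e, U, ns_of_rt hU he.1, he, hz', rfl⟩⟩
      · exact ⟨_, Or.inl ⟨x.1, congrArg Prod.fst hx, rfl⟩⟩
    · -- uniqueness
      rintro a k z v v' (⟨x, hx, rfl⟩ | ⟨e, U, hn, he, hz, rfl⟩)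
        (⟨x', hx', rfl⟩ | ⟨e', V, hn', he', hz', rfl⟩)
      · have : x = x' := inj_of_mono (u.app N) (hu N) a k (hx.trans hx'.symm)
        rw [this]
      · exact key a k z x e' V hn' he' hx hz'
      · exact (key a k z x' e U hn he hx' hz).symm
      · have hW : z ∈ (cface G (V ∩ U)).mem a k := by
          rw [cface_inf]
          exact ⟨hz', hz⟩
        obtain ⟨w, hw⟩ := exists_rt (U := V ∩ U) ⟨_, hW.2 0⟩
        have hnw : NS w := ns_sub hn he fun i => Finset.inter_subset_right (hw.1 i)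
        exact (key2 a k _ e w U (V ∩ U) hn hnw he hw Finset.inter_subset_right hW).symm.trans
          (key2 a k _ e' w V (V ∩ U) hn' hnw he' hw Finset.inter_subset_left hW)
    · -- naturality in `a`
      rintro a a' f k z v (⟨x, hx, rfl⟩ | ⟨e, U, hn, he, hz, rfl⟩)
      · refine Or.inl ⟨((F.obj N).map f).app k x, ?_, ?_⟩
        · rw [hom_nat, hx]
          rfl
        · exact (ψ.nat_left f k _ x).symm
      · refine Or.inr ⟨e, U, hn, he, (cface G U).mapA f k z hz, ?_⟩
        exact ((b e hn).nat_left f k _ z.1).symm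
    · -- naturality in `k`
      rintro a k l α z v (⟨x, hx, rfl⟩ | ⟨e, U, hn, he, hz, rfl⟩)
      · refine Or.inl ⟨((F.obj N).obj a).map α x, ?_, ?_⟩
        · rw [hom_natk, hx]
          rfl
        · exact (ψ.nat_right a α _ x).symm
      · refine Or.inr ⟨e, U, hn, he, (cface G U).mapk a α z hz, ?_⟩
        exact ((b e hn).nat_right a α _ z.1).symm
  obtain ⟨g, hg⟩ := hglue
  obtain ⟨g', hg'⟩ := loc_extend hX (dom u N).ι (fun a => mono_of_inj _
    (fun a k x y h => Subtype.ext h) a) (loc_dom hX u hu N h) g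
  have hval : ∀ (a : Aᵒᵖ) (k : SimplexCategoryᵒᵖ)
      (z : ((tn (G.obj N) (SSet.stdSimplex.obj N)).obj a).obj k)
      (_ : z ∈ (dom u N).mem a k), Rel a k z ((g'.app a).app k z) := by
    intro a k z hz
    have h1 := hg a k ⟨z, hz⟩
    rw [← hg'] at h1
    exact h1
  refine ⟨
    { app := fun a k s x => (g'.app a).app k (x, SSet.stdSimplex.objEquiv.symm s)
      nat_left := fun f k s x => hom_nat g' f (x, SSet.stdSimplex.objEquiv.symm s)
      nat_right := fun a {k l} α s x => hom_natk g' α (x, SSet.stdSimplex.objEquiv.symm s) },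
    ?_, ?_⟩
  · refine MpS.ext ?_
    funext a k s x
    show (g'.app a).app k (((u.app N).app a).app k x, SSet.stdSimplex.objEquiv.symm s) = _
    rcases hval a k (((u.app N).app a).app k x, SSet.stdSimplex.objEquiv.symm s)
      (Or.inr ⟨(x, SSet.stdSimplex.objEquiv.symm s), rfl⟩) with
        ⟨x', hx', hv⟩ | ⟨e, U, hn, he, hz, hv⟩
    · rw [hv]
      have : x' = x := inj_of_mono (u.app N) (hu N) a k hx'
      rw [this]
      rfl
    · rw [hv]
      exact (key a k (((u.app N).app a).app k x, SSet.stdSimplex.objEquiv.symm s) x e U hn he rfl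
        hz).symm
  · intro e U hU he hn a k s x hx hs
    show (g'.app a).app k (x, SSet.stdSimplex.objEquiv.symm s) = _
    have hz : ((x, SSet.stdSimplex.objEquiv.symm s) :
        ((tn (G.obj N) (SSet.stdSimplex.obj N)).obj a).obj k) ∈ (cface G U).mem a k :=
      (mem_cface_iff G he _).2 ⟨hx, hs⟩
    rcases hval a k (x, SSet.stdSimplex.objEquiv.symm s)
      (Or.inl ((mem_bd G _).2 ⟨U, hU, hz⟩)) with ⟨x', hx', hv⟩ | ⟨e', V, hn', he', hz', hv⟩
    · rw [hv]
      exact key a k _ x' e U hn he hx' hz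
    · rw [hv]
      have hW : ((x, SSet.stdSimplex.objEquiv.symm s) :
          ((tn (G.obj N) (SSet.stdSimplex.obj N)).obj a).obj k) ∈ (cface G (V ∩ U)).mem a k := by
        rw [cface_inf]
        exact ⟨hz', hz⟩
      obtain ⟨w, hw⟩ := exists_rt (U := V ∩ U) ⟨_, hW.2 0⟩
      have hnw : NS w := ns_sub hn he fun i => Finset.inter_subset_right (hw.1 i)
      exact (key2 a k _ e' w V (V ∩ U) hn' hnw he' hw Finset.inter_subset_left hW).symm.trans
        (key2 a k _ e w U (V ∩ U) hn hnw he hw Finset.inter_subset_right hW)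

end

end Pool.Agent.Helper55.FL2
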