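import Pool.Agent.Helper55.FL2.GPc
import Pool.Agent.Helper36.FL.Cyl
import Pool.Agent.Helper83.FL.MpFibFinal

/-! FL2-G4, part 4: the generation principle for arbitrary maps (mapping cylinders). -/

open CategoryTheory MonoidalCategory Opposite Simplicial

set_option autoImplicit false

namespace Pool.Agent.Helper55.FL2

open FL Pool.Agent.Helper45.LOC
open Pool.Agent.Helper81.FL2 (cface_inf)
open Pool.Agent.Helper36.FL (Cyl CylS cst_ne)
open Pool.Agent.Helper36.FL.CylS

section

variable {A : Type} [SmallCategory A] {X : SP A}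

section

variable {P Q P' Q' : SP A} {f : P ⟶ Q} {f' : P' ⟶ Q'}

/-- Functoriality of mapping cylinders, on simplices. -/
noncomputable def cylS (f : P ⟶ Q) (f' : P' ⟶ Q') (p : P ⟶ P') (q : Q ⟶ Q') (a : Aᵒᵖ)
    (k : SimplexCategoryᵒᵖ) : CylS f a k → CylS f' a k :=
  desc (fun t x => cy f' t ((p.app a).app k x)) (fun y => base ((q.app a).app k y))

theorem cylS_cy {p : P ⟶ P'} {q : Q ⟶ Q'} (w : f ≫ q = p ≫ f') (a : Aᵒᵖ)
    (k : SimplexCategoryᵒᵖ) (t : k.unop ⟶ ⦋1⦌) (x : (P.obj a).obj k) :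
    cylS f f' p q a k (cy f t x) = cy f' t ((p.app a).app k x) := by
  refine desc_cy _ _ (fun x => ?_) t x
  rw [cy_zero]
  exact congrArg base (ConcreteCategory.congr_hom (NatTrans.congr_app
    (NatTrans.congr_app w a) k) x).symm

theorem cylS_base {p : P ⟶ P'} {q : Q ⟶ Q'} (a : Aᵒᵖ)
    (k : SimplexCategoryᵒᵖ) (y : (Q.obj a).obj k) :
    cylS f f' p q a k (base y) = base ((q.app a).app k y) := rfl

/-- Functoriality of mapping cylinders. -/
noncomputable def cylMap {p : P ⟶ P'} {q : Q ⟶ Q'} (w : f ≫ q = p ≫ f') : Cyl f ⟶ Cyl f' where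
  app a :=
    { app := fun k => ↾ fun (c : CylS f a k) => cylS f f' p q a k c
      naturality := fun k l α => by
        refine ConcreteCategory.hom_ext _ _ fun c => ?_
        change cylS f f' p q a l (mapk α c) = mapk α (cylS f f' p q a k c)
        rcases CylS.eqv c with ⟨t, x, rfl⟩ | ⟨y, rfl⟩
        · rw [mapk_cy, cylS_cy w, cylS_cy w, mapk_cy]
          exact congrArg (cy f' _) (hom_natk p α x)
        · rw [mapk_base, cylS_base, cylS_base, mapk_base]
          exact congrArg base (hom_natk q α y) }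
  naturality a b g := by
    refine NatTrans.ext (funext fun k => ?_)
    refine ConcreteCategory.hom_ext _ _ fun c => ?_
    change cylS f f' p q b k (mapa g c) = mapa g (cylS f f' p q a k c)
    rcases CylS.eqv c with ⟨t, x, rfl⟩ | ⟨y, rfl⟩
    · rw [mapa_cy, cylS_cy w, cylS_cy w, mapa_cy]
      exact congrArg (cy f' _) (hom_nat p g x)
    · rw [mapa_base, cylS_base, cylS_base, mapa_base]
      exact congrArg base (hom_nat q g y)

end

theorem sdr_ret {P Q : SP A} (f : P ⟶ Q) : SDR (Cyl.ret f) := by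
  refine ⟨Cyl.inY f, ?_, Cyl.defo f, ?_, ?_⟩
  · rfl
  · refine MpS.ext ?_
    funext a k s (c : CylS f a k)
    have e : s ≫ (SimplexCategory.δ 1 : ⦋0⦌ ⟶ ⦋1⦌) = Pool.Agent.Helper36.FL.cst k.unop 0 := by
      ext i : 3
      change (SimplexCategory.δ 1 : ⦋0⦌ ⟶ ⦋1⦌).toOrderHom (s.toOrderHom i) = 0
      rw [show s.toOrderHom i = 0 from Subsingleton.elim (α := Fin 1) _ _]
      rfl
    change (Cyl.defo f).app a k (s ≫ (SimplexCategory.δ 1 : ⦋0⦌ ⟶ ⦋1⦌)) c =
      base (((Cyl.ret f).app a).app k c)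
    rw [e]
    rcases CylS.eqv c with ⟨t, x, rfl⟩ | ⟨y, rfl⟩
    · rw [Cyl.defo_cy, minT_zero_right, cy_zero, Cyl.ret_cy]
    · rfl
  · refine MpS.ext ?_
    funext a k s (c : CylS f a k)
    have e : s ≫ (SimplexCategory.δ 0 : ⦋0⦌ ⟶ ⦋1⦌) = Pool.Agent.Helper36.FL.cst k.unop 1 := by
      ext i : 3
      change (SimplexCategory.δ 0 : ⦋0⦌ ⟶ ⦋1⦌).toOrderHom (s.toOrderHom i) = 1
      rw [show s.toOrderHom i = 0 from Subsingleton.elim (α := Fin 1) _ _]
      rfl
    change (Cyl.defo f).app a k (s ≫ (SimplexCategory.δ 0 : ⦋0⦌ ⟶ ⦋1⦌)) c = c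
    rw [e]
    rcases CylS.eqv c with ⟨t, x, rfl⟩ | ⟨y, rfl⟩
    · rw [Cyl.defo_cy, minT_one_right]
    · rfl

theorem inX_ret {P Q : SP A} (f : P ⟶ Q) : Cyl.inX f ≫ Cyl.ret f = f := by
  refine NatTrans.ext (funext fun a => NatTrans.ext (funext fun k => ?_))
  refine ConcreteCategory.hom_ext _ _ fun x => ?_
  exact Cyl.ret_cy f _ x

theorem inX_mono {P Q : SP A} (f : P ⟶ Q) (a : Aᵒᵖ) : Mono ((Cyl.inX f).app a) := by
  have : ∀ k, Mono (((Cyl.inX f).app a).app k) := by
    intro k
    rw [mono_iff_injective]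
    intro x y hxy
    have h1 : cy f (Pool.Agent.Helper36.FL.cst k.unop 1) x =
      cy f (Pool.Agent.Helper36.FL.cst k.unop 1) y := hxy
    rw [cy_of_ne (cst_ne _), cy_of_ne (cst_ne _)] at h1
    injection h1
  exact NatTrans.mono_of_mono_app _

theorem inY_mono {P Q : SP A} (f : P ⟶ Q) (a : Aᵒᵖ) : Mono ((Cyl.inY f).app a) := by
  have : ∀ k, Mono (((Cyl.inY f).app a).app k) := by
    intro k
    rw [mono_iff_injective]
    intro x y hxy
    have h1 : (base x : CylS f a k) = base y := hxy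
    injection h1
  exact NatTrans.mono_of_mono_app _

variable {F G : SimplexCategory ⥤ SP A}

/-- The cosimplicial mapping cylinder. -/
noncomputable def cylF (u : F ⟶ G) : SimplexCategory ⥤ SP A where
  obj m := Cyl (u.app m)
  map α := cylMap (u.naturality α).symm
  map_id m := by
    refine NatTrans.ext (funext fun a => NatTrans.ext (funext fun k => ?_))
    refine ConcreteCategory.hom_ext _ _ fun c => ?_
    change cylS _ _ _ _ a k c = c
    rcases CylS.eqv c with ⟨t, x, rfl⟩ | ⟨y, rfl⟩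
    · rw [cylS_cy (u.naturality (𝟙 m)).symm]
      exact congrArg (cy (u.app m) t) (cos_id F x)
    · exact congrArg base (cos_id G y)
  map_comp {l m n} α β := by
    refine NatTrans.ext (funext fun a => NatTrans.ext (funext fun k => ?_))
    refine ConcreteCategory.hom_ext _ _ fun c => ?_
    change cylS _ _ _ _ a k c = cylS _ _ _ _ a k (cylS _ _ _ _ a k c)
    rcases CylS.eqv c with ⟨t, x, rfl⟩ | ⟨y, rfl⟩
    · rw [cylS_cy (u.naturality (α ≫ β)).symm, cylS_cy (u.naturality α).symm,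
        cylS_cy (u.naturality β).symm]
      exact congrArg (cy (u.app n) t) (cos_comp F α β x)
    · exact congrArg base (cos_comp G α β y)

/-- The inclusion of the source. -/
noncomputable def inXF (u : F ⟶ G) : F ⟶ cylF u where
  app m := Cyl.inX (u.app m)
  naturality m n α := by
    refine NatTrans.ext (funext fun a => NatTrans.ext (funext fun k => ?_))
    refine ConcreteCategory.hom_ext _ _ fun x => ?_
    exact (cylS_cy (u.naturality α).symm a k _ x).symm

/-- The inclusion of the target. -/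
noncomputable def inYF (u : F ⟶ G) : G ⟶ cylF u where
  app m := Cyl.inY (u.app m)
  naturality _ _ _ := rfl

/-- The retraction. -/
noncomputable def retF (u : F ⟶ G) : cylF u ⟶ G where
  app m := Cyl.ret (u.app m)
  naturality m n α := by
    refine NatTrans.ext (funext fun a => NatTrans.ext (funext fun k => ?_))
    refine ConcreteCategory.hom_ext _ _ fun c => ?_
    change ((Cyl.ret (u.app n)).app a).app k (cylS _ _ _ _ a k c) =
      ((G.map α).app a).app k (((Cyl.ret (u.app m)).app a).app k c)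
    rcases CylS.eqv c with ⟨t, x, rfl⟩ | ⟨y, rfl⟩
    · rw [cylS_cy (u.naturality α).symm, Cyl.ret_cy, Cyl.ret_cy]
      exact u_nat u α x
    · rfl

theorem Yc_pre_hoEq (hX : InjFib X) {F G : SimplexCategory ⥤ SP A} (u : F ⟶ G)
    (h : ∀ m, Loc X (u.app m)) (hF : SSet.KanComplex (Yc F X))
    (hG : SSet.KanComplex (Yc G X)) : HoEq (Yc.pre u X) := by
  have hr : ∀ m, Loc X ((retF u).app m) := fun m => loc_of_sdr (sdr_ret (u.app m))
  have hi : ∀ m, Loc X ((inXF u).app m) := fun m => by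
    refine loc_of_comp_right hX (hr m) ?_
    have h1 : (inXF u).app m ≫ (retF u).app m = u.app m := inX_ret (u.app m)
    rw [h1]
    exact h m
  have hj : ∀ m, Loc X ((inYF u).app m) := fun m => by
    refine loc_of_comp_right hX (hr m) ?_
    have h1 : (inYF u).app m ≫ (retF u).app m = 𝟙 (G.obj m) := rfl
    rw [h1]
    exact loc_of_isIso _
  have ti : TrivFib (Yc.pre (inXF u) X) :=
    Yc_pre_trivFib hX (inXF u) (fun m a => inX_mono (u.app m) a) hi
  have tj : TrivFib (Yc.pre (inYF u) X) :=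
    Yc_pre_trivFib hX (inYF u) (fun m a => inY_mono (u.app m) a) hj
  have hM : SSet.KanComplex (Yc (cylF u) X) :=
    Pool.Agent.Helper83.FL4.kan_of_kanFib (Pool.Agent.Helper45.FL2.TrivFib.kanFib ti) hF
  have e1 : Yc.pre (retF u) X ≫ Yc.pre (inYF u) X = 𝟙 _ := rfl
  have h2 : HoEq (Yc.pre (retF u) X) := by
    refine Pool.Agent.Helper88.FL.hoEq_of_comp_right hG hM hG
      (Pool.Agent.Helper45.FL2.TrivFib.hoEq tj) ?_
    rw [e1]
    exact Pool.Agent.Helper88.FL.hoEq_of_isIso _
  have e2 : Yc.pre u X = Yc.pre (retF u) X ≫ Yc.pre (inXF u) X := by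
    refine NatTrans.ext (funext fun m => ?_)
    refine ConcreteCategory.hom_ext _ _ fun φ => ?_
    refine MpS.ext ?_
    funext a k s x
    refine congrArg (MpS.app φ a k s) ?_
    exact (Cyl.ret_cy (u.app m.unop) _ x).symm
  rw [e2]
  exact Pool.Agent.Helper88.FL.hoEq_comp hG hM hF h2 (Pool.Agent.Helper45.FL2.TrivFib.hoEq ti)

end

end Pool.Agent.Helper55.FL2
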