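import Pool.Agent.Helper61.FL2.BSegC
import Pool.Agent.Helper61.FL2.ES
import Pool.Agent.Helper71.FL2.Cons
import Pool.Agent.Helper91.FL2.RSFinal
import Pool.Agent.Helper53.FL2.HmAdj
import Pool.Agent.Helper54.FL2.Fib
import Pool.Agent.Helper41.FL2.RR
import Pool.Agent.Helper41.FL2.V4
import Pool.Agent.Helper41.FL2.V5
import Pool.Agent.Helper25.FL2.TrHm
import Pool.Agent.Helper25.FL2.TrSg

/-! FL2-F1b, part 1: the map `X ∘ t_i ⟶ X`. -/

open CategoryTheory MonoidalCategory Opposite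

set_option autoImplicit false

namespace Pool.Agent.Helper55.FL2

open FL
open Helper41FL2 (sg_succ_iff cj_succ_iff isCat_iff RR_vt exists_HmRR)
open Pool.Agent.Helper61.FL2 (spLoc_iff ES_of_arrow_iso ES_comp ES_of_objHoEq ES_of_comp_left)
open Pool.Agent.Helper71.FL2 (ES_objHoEq)
open Pool.Agent.Helper25.FL2 (isCat_of_truncated_zero)
open Pool.Agent.Helper91.FL2 (Rs_injFib Rs_Hm_isIso)
open Pool.Agent.Helper25.FL2 (vu hmIso hom_ext_zero unit_toPt toPt_unit unit_inj)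
open Pool.Agent.Helper88.FL (hoEq_comp hoEq_of_comp_left hoEq_of_comp_right hoEq_of_isIso
  hoEq_of_arrow_iso)

theorem vfib_tr {n : ℕ} {X : SP (Th (n + 1))} (hX : VFib (C := Th n) X) (i : ℕ) :
    VFib (C := Th n) ((tr (n + 1) (i + 1)).op ⋙ X) :=
  Pool.Agent.Helper25.FL2.vfib_tr (tr n i) (trUnit n i) X hX

theorem bSeg_tr {n : ℕ} {X : SP (Th (n + 1))} (hX' : BSeg (C := Th n) X) (i : ℕ) :
    BSeg (C := Th n) ((tr (n + 1) (i + 1)).op ⋙ X) :=
  Pool.Agent.Helper25.FL2.bSeg_tr (tr n i) (trUnit n i) X hX'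

/-- The map `Z ∘ t_i ⟶ Z`. -/
noncomputable def tU (n i : ℕ) (Z : SP (Th n)) : (tr n i).op ⋙ Z ⟶ Z where
  app θ := Z.map ((trUnit n i).app θ.unop).op
  naturality θ θ' f := by
    have h : f.unop ≫ (trUnit n i).app θ.unop =
      (trUnit n i).app θ'.unop ≫ (tr n i).map f.unop := (trUnit n i).naturality f.unop
    refine (Z.map_comp _ _).symm.trans (Eq.trans ?_ (Z.map_comp _ _))
    exact congrArg (fun t => Z.map (Quiver.Hom.op t)) h.symm

theorem truncated_iff {n i : ℕ} {Z : SP (Th n)} : Truncated i Z ↔ ObjHoEq (tU n i Z) :=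
  ⟨fun h a => h a.unop, fun h θ => h (op θ)⟩

theorem tU_Hm {n i : ℕ} (Z : SP (Th (n + 1)))
    (a b : Vt (C := Th n) ((tr (n + 1) (i + 1)).op ⋙ Z)) :
    (hmIso (C := Th n) (tr n i) (trUnit n i) Z a b).hom ≫
      tU n i (Hm (C := Th n) Z (vu (C := Th n) (tr n i) (trUnit n i) Z a)
        (vu (C := Th n) (tr n i) (trUnit n i) Z b)) =
      HmMap (C := Th n) (tU (n + 1) (i + 1) Z) a b := rfl

theorem tU_nat {n i : ℕ} {Z Z' : SP (Th n)} (f : Z ⟶ Z') :
    Functor.whiskerLeft (tr n i).op f ≫ tU n i Z' = tU n i Z ≫ f := by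
  refine NatTrans.ext (funext fun a => ?_)
  exact (f.naturality ((trUnit n i).app a.unop).op).symm

theorem objKan_tr {n : ℕ} (i : ℕ) {X : SP (Th n)} (hX : ObjKan X) :
    ObjKan ((tr n i).op ⋙ X) := fun a => hX (op ((tr n i).obj a.unop))

theorem truncated_of_objHoEq {n i : ℕ} {Z Z' : SP (Th n)} (hZ : ObjKan Z) (hZ' : ObjKan Z')
    (f : Z ⟶ Z') (hf : ObjHoEq f) (h : Truncated i Z) : Truncated i Z' := by
  intro θ
  have e : f.app _ ≫ Z'.map ((trUnit n i).app θ).op = Z.map ((trUnit n i).app θ).op ≫ f.app _ :=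
    (f.naturality ((trUnit n i).app θ).op).symm
  refine hoEq_of_comp_left (hZ _) (hZ' _) (hZ' _) (hf (op ((tr n i).obj θ))) ?_
  rw [e]
  exact hoEq_comp (hZ _) (hZ _) (hZ' _) (h θ) (hf _)

end Pool.Agent.Helper55.FL2
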