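import Pool.Agent.Helper55.FL2.TruncA

/-! FL2-F1b, part 2: truncated presheaves and their mapping presheaves. -/

open CategoryTheory MonoidalCategory Opposite

set_option autoImplicit false

namespace Pool.Agent.Helper55.FL2

open FL
open Helper41FL2 (sg_succ_iff cj_succ_iff isCat_iff RR_vt exists_HmRR)
open Pool.Agent.Helper61.FL2 (spLoc_iff ES_of_arrow_iso ES_comp ES_of_objHoEq ES_of_comp_left)
open Pool.Agent.Helper71.FL2 (ES_objHoEq)
open Pool.Agent.Helper25.FL2 (isCat_of_truncated_zero)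
open Pool.Agent.Helper91.FL2 (Rs_injFib Rs_Hm_isIso)
open Pool.Agent.Helper25.FL2 (vu hmIso hom_ext_zero unit_toPt toPt_unit unit_inj tr_vt_bij)
open Pool.Agent.Helper88.FL (hoEq_comp hoEq_of_comp_left hoEq_of_comp_right hoEq_of_isIso
  hoEq_of_arrow_iso)
open Pool.Agent.Helper54.FL2 (cn_map)

variable {n : ℕ}

theorem objHoEq_iso_comp {A : Type} [SmallCategory A] {X Y Z : SP A} (e : X ≅ Y) (f : Y ⟶ Z) :
    ObjHoEq (e.hom ≫ f) ↔ ObjHoEq f := by
  constructor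
  · intro h a
    exact hoEq_of_arrow_iso (e.app a) (Iso.refl _) rfl (h a)
  · intro h a
    refine hoEq_of_arrow_iso (e.app a).symm (Iso.refl _) ?_ (h a)
    show f.app a ≫ 𝟙 _ = e.inv.app a ≫ e.hom.app a ≫ f.app a
    rw [Category.comp_id, ← Category.assoc, ← NatTrans.comp_app, e.inv_hom_id, NatTrans.id_app,
      Category.id_comp]

theorem truncated_Hm {Z : SP (Th (n + 1))} (hZ : VFib (C := Th n) Z) {i : ℕ}
    (h : Truncated (i + 1) Z) (x y : Vt (C := Th n) Z) :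
    Truncated i (Hm (C := Th n) Z x y) := by
  obtain ⟨a, rfl⟩ := (tr_vt_bij Z i).2 x
  obtain ⟨b, rfl⟩ := (tr_vt_bij Z i).2 y
  refine truncated_iff.2 ?_
  have h1 := Pool.Agent.Helper61.FL2.HmMap_objHoEq (C := Th n) (vfib_tr hZ i) hZ
    (truncated_iff.1 h) a b
  exact (objHoEq_iso_comp (hmIso (C := Th n) (tr n i) (trUnit n i) Z a b) (tU n i _)).1 h1

theorem truncated_of_Hm {Z : SP (Th (n + 1))} (hZ : VFib (C := Th n) Z)
    (hB : BSeg (C := Th n) Z) {i : ℕ} (O : Set (Vt (C := Th n) Z))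
    (hO : ∀ z : Vt (C := Th n) Z, ∃ x ∈ O, Cn (Z.obj (op (ptT (n + 1)))) x z)
    (h : ∀ x ∈ O, ∀ y ∈ O, Truncated i (Hm (C := Th n) Z x y)) : Truncated (i + 1) Z := by
  have key : ∀ (k : SimplexCategoryᵒᵖ)
      (z : (Z.obj (op ((Wr.map (tr n i)).obj (Wr.pt : Wr (Th n))))).obj k),
      (Z.map (Wr.toPt ((Wr.map (tr n i)).obj (Wr.pt : Wr (Th n)))).op).app k
        ((Z.map ((Wr.mapIdNat (trUnit n i)).app (Wr.pt : Wr (Th n))).op).app k z) = z := by
    intro k z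
    refine (sp_comp Z ((Wr.mapIdNat (trUnit n i)).app (Wr.pt : Wr (Th n))).op
      (Wr.toPt ((Wr.map (tr n i)).obj (Wr.pt : Wr (Th n)))).op z).symm.trans ?_
    refine Eq.trans ?_ (sp_id Z z)
    exact congrArg (fun t => (Z.map (Quiver.Hom.op t)).app k z) (toPt_unit (tr n i) (trUnit n i))
  refine truncated_iff.2 (Pool.Agent.Helper61.FL2.objHoEq_of_Hm (C := Th n) (vfib_tr hZ i) hZ
    (bSeg_tr hB i) hB (f := tU (n + 1) (i + 1) Z) ?_
    {a | vu (C := Th n) (tr n i) (trUnit n i) Z a ∈ O} ?_ ?_)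
  · let I : (Wr.pt : Wr (Th n)) ≅ (Wr.map (tr n i)).obj (Wr.pt : Wr (Th n)) :=
      ⟨(Wr.mapIdNat (trUnit n i)).app (Wr.pt : Wr (Th n)), Wr.toPt _,
        unit_toPt (tr n i) (trUnit n i), toPt_unit (tr n i) (trUnit n i)⟩
    exact hoEq_of_isIso (Functor.mapIso Z (Iso.op I)).hom
  · intro z
    obtain ⟨x, hx, hc⟩ := hO (vu (C := Th n) (tr n i) (trUnit n i) Z z)
    obtain ⟨a, rfl⟩ := (tr_vt_bij Z i).2 x
    refine ⟨a, hx, ?_⟩
    have h1 := cn_map (Z.map (Wr.toPt ((Wr.map (tr n i)).obj (Wr.pt : Wr (Th n)))).op) hc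
    have e1 := key _ a
    have e2 := key _ z
    exact (congrArg₂ (Cn (Z.obj (op ((Wr.map (tr n i)).obj (Wr.pt : Wr (Th n)))))) e1 e2).mp h1
  · intro a ha b hb
    exact (objHoEq_iso_comp (hmIso (C := Th n) (tr n i) (trUnit n i) Z a b) (tU n i _)).2
      (truncated_iff.1 (h _ ha _ hb))

end Pool.Agent.Helper55.FL2
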