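import Pool.Agent.Helper55.FL2.TruncB

/-! FL2-F1b, part 3: `tr_down` and `tr_up`. -/

open CategoryTheory MonoidalCategory Opposite

set_option autoImplicit false

namespace Pool.Agent.Helper55.FL2

open FL
open Helper41FL2 (sg_succ_iff cj_succ_iff isCat_iff RR_vt exists_HmRR)
open Pool.Agent.Helper61.FL2 (spLoc_iff ES_of_arrow_iso ES_comp ES_of_objHoEq ES_of_comp_left)
open Pool.Agent.Helper71.FL2 (ES_objHoEq)
open Pool.Agent.Helper25.FL2 (isCat_of_truncated_zero)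
open Pool.Agent.Helper91.FL2 (Rs_injFib Rs_Hm_isIso)
open Pool.Agent.Helper25.FL2 (vu hmIso hom_ext_zero unit_toPt toPt_unit unit_inj tr_vt_bij)
open Pool.Agent.Helper88.FL (hoEq_comp hoEq_of_comp_left hoEq_of_comp_right hoEq_of_isIso
  hoEq_of_arrow_iso)
open Pool.Agent.Helper54.FL2 (cn_map cn_trans cn_refl kan_fb)
open Helper41FL2 (RR_injFib RR_objKan RR_objHoEq RR_map_objHoEq)
open Helper53FL2 (Hm_injFib InjFib.vfib)

theorem objKan_of_inj {A : Type} [SmallCategory A] {Z : SP A} (hZ : InjFib Z) : ObjKan Z :=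
  Pool.Agent.Helper46.FLb.InjFib.objKan (fun P _ h => Pool.Agent.Helper83.FL4.Mp_kan P h) hZ

variable {n : ℕ}

theorem hm_sg {X : SP (Th (n + 1))} (hX : Sg (n + 1) X) (x y : Vt (C := Th n) X) :
    Sg n (Hm (C := Th n) X x y) :=
  ((sg_succ_iff hX.1 Set.univ fun z => ⟨z, trivial, cn_refl z⟩).1 hX).2 x trivial y trivial

theorem hm_isCat {Y : SP (Th (n + 1))} (hY : IsCat (n + 1) Y) (x y : Vt (C := Th n) Y) :
    IsCat n (Hm (C := Th n) Y x y) := by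
  have h := isCat_iff.1 hY
  refine isCat_iff.2 ⟨hm_sg h.1 x y, fun j => ?_⟩
  exact (cj_succ_iff h.1.1 Set.univ fun z => ⟨z, trivial, cn_refl z⟩).1 (h.2 (j + 1)) x trivial
    y trivial

theorem objHoEq_of_isIso {A : Type} [SmallCategory A] {X Y : SP A} (f : X ⟶ Y) [IsIso f] :
    ObjHoEq f := fun _ => hoEq_of_isIso _

theorem alg {K : Type*} [Category K] {A B R S U V : K} (φ : A ≅ B) (ηB : B ⟶ R) (ηA : A ⟶ S)
    (m : R ⟶ S) (g : S ⟶ U) (q : U ⟶ V) (h1 : φ.inv ≫ ηA = ηB ≫ m) :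
    φ.hom ≫ ηB ≫ (m ≫ g) ≫ q = (ηA ≫ g) ≫ q := by
  have h2 : φ.hom ≫ ηB ≫ m = ηA := by
    rw [← h1, ← Category.assoc, φ.hom_inv_id, Category.id_comp]
  rw [← h2]
  simp only [Category.assoc]

/-- The comparison for mapping presheaves. -/
theorem hm_data {X Y : SP (Th (n + 1))} (hX : InjFib X) (hY : InjFib Y) (i : ℕ)
    (e' : (RR (Th (n + 1))).obj ((tr (n + 1) (i + 1)).op ⋙ X) ⟶ Y)
    (a b : Vt (C := Th n) ((tr (n + 1) (i + 1)).op ⋙ X)) :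
    ∃ e₁ : (RR (Th n)).obj ((tr n i).op ⋙ Hm (C := Th n) X
        (vu (C := Th n) (tr n i) (trUnit n i) X a) (vu (C := Th n) (tr n i) (trUnit n i) X b)) ⟶
      Hm (C := Th n) Y
        (vtMap (C := Th n) ((RR (Th (n + 1))).η ((tr (n + 1) (i + 1)).op ⋙ X) ≫ e') a)
        (vtMap (C := Th n) ((RR (Th (n + 1))).η ((tr (n + 1) (i + 1)).op ⋙ X) ≫ e') b),
      (hmIso (C := Th n) (tr n i) (trUnit n i) X a b).hom ≫ (RR (Th n)).η _ ≫ e₁ =
        HmMap (C := Th n) ((RR (Th (n + 1))).η ((tr (n + 1) (i + 1)).op ⋙ X) ≫ e') a b ∧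
      (ES n n e₁ ↔ ES n n (HmMap (C := Th n) e'
        (vtMap (C := Th n) ((RR (Th (n + 1))).η ((tr (n + 1) (i + 1)).op ⋙ X)) a)
        (vtMap (C := Th n) ((RR (Th (n + 1))).η ((tr (n + 1) (i + 1)).op ⋙ X)) b))) := by
  have hV : VFib (C := Th n) ((tr (n + 1) (i + 1)).op ⋙ X) :=
    vfib_tr (InjFib.vfib (C := Th n) hX) i
  obtain ⟨g, hg1, hg2⟩ := exists_HmRR (C := Th n) hV a b
  have hI : InjFib ((RR (Th (n + 1))).obj ((tr (n + 1) (i + 1)).op ⋙ X)) :=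
    RR_injFib (objKan_tr (i + 1) (objKan_of_inj hX))
  have k1 : ObjKan (Hm (C := Th n) ((tr (n + 1) (i + 1)).op ⋙ X) a b) := fun c =>
    kan_fb (hV.2 c.unop) (a, b)
  have k2 : ObjKan ((tr n i).op ⋙ Hm (C := Th n) X
        (vu (C := Th n) (tr n i) (trUnit n i) X a)
        (vu (C := Th n) (tr n i) (trUnit n i) X b)) :=
    objKan_tr i (objKan_of_inj (Hm_injFib (C := Th n) hX _ _))
  have i1 := RR_injFib k2
  have i2 := Hm_injFib (C := Th n) hI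
    (vtMap (C := Th n) ((RR (Th (n + 1))).η ((tr (n + 1) (i + 1)).op ⋙ X)) a)
    (vtMap (C := Th n) ((RR (Th (n + 1))).η ((tr (n + 1) (i + 1)).op ⋙ X)) b)
  let φ := hmIso (C := Th n) (tr n i) (trUnit n i) X a b
  have hq : ObjHoEq ((RR (Th n)).map φ.inv ≫ g) := by
    intro c
    have h1 : ObjHoEq ((RR (Th n)).map φ.inv) :=
      RR_map_objHoEq k2 k1 (objHoEq_of_isIso φ.inv)
    exact hoEq_comp (RR_objKan k2 c) (RR_objKan k1 c) (objKan_of_inj i2 c) (h1 c) (hg2 c)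
  have hq' : ES n n ((RR (Th n)).map φ.inv ≫ g) := ES_of_objHoEq i1 i2 hq
  have i3 := Hm_injFib (C := Th n) hY
    (vtMap (C := Th n) ((RR (Th (n + 1))).η ((tr (n + 1) (i + 1)).op ⋙ X) ≫ e') a)
    (vtMap (C := Th n) ((RR (Th (n + 1))).η ((tr (n + 1) (i + 1)).op ⋙ X) ≫ e') b)
  refine ⟨((RR (Th n)).map φ.inv ≫ g) ≫ HmMap (C := Th n) e' _ _, ?_, ?_⟩
  · have h1 : φ.inv ≫ (RR (Th n)).η _ = (RR (Th n)).η _ ≫ (RR (Th n)).map φ.inv :=
      (RR (Th n)).η_naturality φ.inv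
    exact (alg φ _ _ _ g _ h1).trans (congrArg (· ≫ HmMap (C := Th n) e' _ _) hg1)
  · exact ⟨fun h => ES_of_comp_left i1 i2 i3 hq' h, fun h => ES_comp i2 i3 i1 hq' h⟩

end Pool.Agent.Helper55.FL2
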